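import Pool.Agent.TH561.PK.Div

/-!
# The multiplicity of the root `1`
-/

set_option autoImplicit false

namespace Pool.Agent.TH561.PK

open LaurentPolynomial Finset

section arith

variable (p : ℕ) [hp : Fact p.Prime]

theorem exists_val (n : ℤ) (hn : n ≠ 0) :
    ∃ (v : ℕ) (n' : ℤ), n = (p : ℤ) ^ v * n' ∧ ¬ (p : ℤ) ∣ n' := by
  obtain ⟨v, m, hm, h⟩ := Nat.exists_eq_pow_mul_and_not_dvd (n := n.natAbs) (by omega) p hp.out.ne_one
  rcases Int.natAbs_eq n with h1 | h1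
  · refine ⟨v, m, ?_, ?_⟩
    · rw [h1, h]; push_cast; ring
    · rw [Int.natCast_dvd_natCast]; exact hm
  · refine ⟨v, -m, ?_, ?_⟩
    · rw [h1, h]; push_cast; ring
    · rw [dvd_neg, Int.natCast_dvd_natCast]; exact hm

theorem geom (n : ℕ) : ∃ U : (ZMod p)[T;T⁻¹], T (n : ℤ) - 1 = (T 1 - 1) * U ∧ eps p U = n := by
  induction n with
  | zero => exact ⟨0, by simp, by simp⟩
  | succ n ih =>
    obtain ⟨U, h1, h2⟩ := ih
    refine ⟨U + T n, ?_, ?_⟩
    · rw [mul_add, ← h1]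
      push_cast
      rw [T_add]
      ring
    · rw [map_add, h2, eps_T]
      push_cast
      ring

theorem geomZ (n : ℤ) : ∃ U : (ZMod p)[T;T⁻¹], T n - 1 = (T 1 - 1) * U ∧ eps p U = n := by
  rcases Int.eq_nat_or_neg n with ⟨m, h | h⟩
  · obtain ⟨U, h1, h2⟩ := geom p m
    subst h
    exact ⟨U, h1, by rw [h2]; simp⟩
  · obtain ⟨U, h1, h2⟩ := geom p m
    subst h
    refine ⟨-T (-(m : ℤ)) * U, ?_, ?_⟩
    · have h3 : (T (-(m : ℤ)) * T m : (ZMod p)[T;T⁻¹]) = 1 := by rw [← T_add]; simp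
      calc (T (-(m : ℤ)) - 1 : (ZMod p)[T;T⁻¹]) = -T (-(m : ℤ)) * (T m - 1) := by
            rw [mul_sub, neg_mul, h3]; ring
        _ = _ := by rw [h1]; ring
    · rw [map_mul, map_neg, eps_T, h2]
      push_cast
      ring

theorem factor (n : ℤ) (v : ℕ) (n' : ℤ) (h : n = (p : ℤ) ^ v * n') (h' : ¬ (p : ℤ) ∣ n') :
    ∃ U : (ZMod p)[T;T⁻¹], T n - 1 = (T 1 - 1) ^ (p ^ v) * U ∧ eps p U ≠ 0 := by
  obtain ⟨U, h1, h2⟩ := geomZ p n'
  refine ⟨U ^ (p ^ v), ?_, ?_⟩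
  · rw [← mul_pow, ← h1, sub_pow_char_pow, one_pow, T_pow, h]
    push_cast
    rfl
  · rw [map_pow, h2]
    apply pow_ne_zero
    intro h3
    exact h' ((ZMod.intCast_zmod_eq_zero_iff_dvd n' p).1 h3)

theorem order {e N : ℕ} {U W : (ZMod p)[T;T⁻¹]} (hU : eps p U ≠ 0)
    (h : (T 1 - 1) ^ e * U = (T 1 - 1) ^ N * W) : N ≤ e := by
  by_contra hcon
  push Not at hcon
  have hne : (T 1 - 1 : (ZMod p)[T;T⁻¹]) ≠ 0 := by
    intro h0
    rw [← T_zero] at h0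
    have h1 : (T 1 : (ZMod p)[T;T⁻¹]).coeff 1 = (T 0 : (ZMod p)[T;T⁻¹]).coeff 1 := by
      rw [sub_eq_zero.1 h0]
    rw [T_apply, T_apply, if_pos rfl, if_neg (by norm_num)] at h1
    exact one_ne_zero h1
  obtain ⟨d, rfl⟩ : ∃ d, N = e + (d + 1) := ⟨N - e - 1, by omega⟩
  rw [pow_add, mul_assoc] at h
  have h3 := mul_left_cancel₀ (pow_ne_zero e hne) h
  apply hU
  rw [h3, map_mul, map_pow, map_sub, eps_T, map_one, sub_self, pow_succ, mul_zero, zero_mul]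

theorem zmod2 (a b : ZMod 2) (ha : a ≠ 0) (hb : b ≠ 0) : a = b := by
  revert a b
  decide

theorem arith_main (k : ℕ) (hk : 1 ≤ k) (l : ℤ) (hl : l % 2 = 1) (κ : ZMod p)
    (hκ : κ = 0 ∨ κ = 1 ∨ κ = -1) (c0 : ZMod p) (hc0 : c0 ≠ 0) (H : (ZMod p)[T;T⁻¹])
    (h : C κ * (T l + T (-l)) = (T 1 + T (-1)) * (C c0 + (T 1 - T (-1)) ^ (2 * p ^ k) * H)) :
    (2 * p ^ (k + 1) : ℤ) ∣ l - 1 ∨ (2 * p ^ (k + 1) : ℤ) ∣ l + 1 := by
  have hp1 := hp.out.pos
  have hq1 : 1 ≤ p ^ k := Nat.one_le_iff_ne_zero.2 (pow_ne_zero k hp.out.ne_zero)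
  by_cases hl1 : l = 1
  · left; rw [hl1]; simp
  by_cases hl2 : l = -1
  · right; rw [hl2]; simp
  have heps : eps p (C c0 + (T 1 - T (-1)) ^ (2 * p ^ k) * H) = c0 := by
    rw [map_add, map_mul, map_pow, map_sub, eps_T, eps_T, eps_C, sub_self, zero_pow (by omega),
      zero_mul, add_zero]
  have hz : (T 1 + T (-1) : (ZMod p)[T;T⁻¹]) ≠ 0 := by
    intro h0
    have h1 : (T 1 + T (-1) : (ZMod p)[T;T⁻¹]).coeff 1 = 0 := by rw [h0]; rfl
    have h2 : (T 1 + T (-1) : (ZMod p)[T;T⁻¹]).coeff 1 = 1 := by simp [T_apply]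
    rw [h1] at h2
    exact zero_ne_one h2
  have hκ0 : κ ≠ 0 := by
    intro h0
    rw [h0, map_zero, zero_mul] at h
    have h1 := (mul_eq_zero.1 h.symm).resolve_left hz
    rw [h1, map_zero] at heps
    exact hc0 heps.symm
  have h2 : κ * 2 = 2 * c0 := by
    have h3 := congrArg (eps p) h
    rw [map_mul, map_mul, heps, eps_C, map_add, map_add, eps_T, eps_T, eps_T, eps_T] at h3
    rw [show (2 : ZMod p) = 1 + 1 by norm_num]
    exact h3
  have hκc : κ = c0 := by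
    by_cases hp2 : p = 2
    · subst hp2
      exact zmod2 κ c0 hκ0 hc0
    · have h3 : (2 : ZMod p) ≠ 0 := by
        intro h4
        have h5 : ((2 : ℕ) : ZMod p) = 0 := by exact_mod_cast h4
        rw [ZMod.natCast_eq_zero_iff] at h5
        exact hp2 ((Nat.prime_dvd_prime_iff_eq hp.out Nat.prime_two).1 h5)
      rw [mul_comm] at h2
      exact mul_left_cancel₀ h3 h2
  subst hκc
  -- the factorised equation
  have hCC : (C κ * C κ⁻¹ : (ZMod p)[T;T⁻¹]) = 1 := by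
    rw [← map_mul, mul_inv_cancel₀ hκ0, map_one]
  have hTT : (T l * T (-l) : (ZMod p)[T;T⁻¹]) = 1 := by rw [← T_add]; simp
  have h5 : ((T (l + 1) - 1) * (T (l - 1) - 1) : (ZMod p)[T;T⁻¹]) =
      (T 1 + T (-1)) * (T 1 - T (-1)) ^ (2 * p ^ k) * (C κ⁻¹ * T l * H) := by
    have h6 : (T (l + 1) : (ZMod p)[T;T⁻¹]) = T l * T 1 := by rw [← T_add]
    have h7 : (T (l - 1) : (ZMod p)[T;T⁻¹]) = T l * T (-1) := by rw [← T_add]; rfl
    have h8 : (T 1 * T (-1) : (ZMod p)[T;T⁻¹]) = 1 := by rw [← T_add]; simp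
    have h9 : C κ * ((T l + T (-l)) - (T 1 + T (-1)) : (ZMod p)[T;T⁻¹]) =
        (T 1 + T (-1)) * (T 1 - T (-1)) ^ (2 * p ^ k) * H := by
      rw [mul_sub, h]; ring
    calc ((T (l + 1) - 1) * (T (l - 1) - 1) : (ZMod p)[T;T⁻¹])
        = T l * T l * (T 1 * T (-1)) - T l * (T 1 + T (-1)) + 1 := by rw [h6, h7]; ring
      _ = T l * T l - T l * (T 1 + T (-1)) + T l * T (-l) := by rw [h8, hTT, mul_one]
      _ = (C κ * C κ⁻¹) * (T l * ((T l + T (-l)) - (T 1 + T (-1)))) := by rw [hCC]; ring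
      _ = (C κ⁻¹ * T l) * (C κ * ((T l + T (-l)) - (T 1 + T (-1)))) := by ring
      _ = _ := by rw [h9]; ring
  obtain ⟨v1, n1, hv1, hn1⟩ := exists_val p (l + 1) (by omega)
  obtain ⟨v2, n2, hv2, hn2⟩ := exists_val p (l - 1) (by omega)
  obtain ⟨U1, hU1, hU1'⟩ := factor p (l + 1) v1 n1 hv1 hn1
  obtain ⟨U2, hU2, hU2'⟩ := factor p (l - 1) v2 n2 hv2 hn2
  have hU : eps p (U1 * U2) ≠ 0 := by
    rw [map_mul]; exact mul_ne_zero hU1' hU2'
  have hL : ((T (l + 1) - 1) * (T (l - 1) - 1) : (ZMod p)[T;T⁻¹]) =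
      (T 1 - 1) ^ (p ^ v1 + p ^ v2) * (U1 * U2) := by
    rw [hU1, hU2, pow_add]; ring
  have hd : (T 1 - T (-1) : (ZMod p)[T;T⁻¹]) = (T 1 - 1) * (T (-1) * (T 1 + 1)) := by
    have h8 : (T (-1) * T 1 : (ZMod p)[T;T⁻¹]) = 1 := by rw [← T_add]; simp
    calc (T 1 - T (-1) : (ZMod p)[T;T⁻¹]) = (T (-1) * T 1) * T 1 - T (-1) := by rw [h8, one_mul]
      _ = _ := by ring
  by_cases hp2 : p = 2
  · subst hp2
    have hch : CharP (ZMod 2)[T;T⁻¹] 2 := charP_laurent 2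
    have h2z : (2 : (ZMod 2)[T;T⁻¹]) = 0 := CharTwo.two_eq_zero
    have hp1' : (T 1 + 1 : (ZMod 2)[T;T⁻¹]) = T 1 - 1 := by
      calc (T 1 + 1 : (ZMod 2)[T;T⁻¹]) = T 1 - 1 + 2 := by ring
        _ = _ := by rw [h2z, add_zero]
    have hz' : (T 1 + T (-1) : (ZMod 2)[T;T⁻¹]) = (T 1 - 1) ^ 2 * T (-1) := by
      calc (T 1 + T (-1) : (ZMod 2)[T;T⁻¹]) = (T 1 - T (-1)) + 2 * T (-1) := by ring
        _ = _ := by rw [h2z, zero_mul, add_zero, hd, hp1']; ring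
    have h6 : (T 1 - 1) ^ (2 ^ v1 + 2 ^ v2) * (U1 * U2) =
        (T 1 - 1) ^ (2 + 4 * 2 ^ k) * (T (-1) * (T (-1)) ^ (2 * 2 ^ k) * (C κ⁻¹ * T l * H)) := by
      rw [← hL, h5, hz', hd, hp1', pow_add]
      have : ((T 1 - 1) * (T (-1) * (T 1 - 1)) : (ZMod 2)[T;T⁻¹]) ^ (2 * 2 ^ k) =
          (T 1 - 1) ^ (4 * 2 ^ k) * (T (-1)) ^ (2 * 2 ^ k) := by
        have h7 : 4 * 2 ^ k = 2 * (2 * 2 ^ k) := by ring
        have h8 : ((T 1 - 1) * (T (-1) * (T 1 - 1)) : (ZMod 2)[T;T⁻¹]) = (T 1 - 1) ^ 2 * T (-1) := by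
          ring
        rw [h7, h8, mul_pow, ← pow_mul]
      rw [this]
      ring
    have h7 := order 2 hU h6
    -- integers
    have hk2 : 2 ^ (k + 2) = 4 * 2 ^ k := by ring
    have hv : ∀ v : ℕ, 4 * 2 ^ k ≤ 2 ^ v → k + 2 ≤ v := by
      intro v hv
      rw [← hk2] at hv
      exact (Nat.pow_le_pow_iff_right (by norm_num)).1 hv
    have hsmall : ∀ (v : ℕ) (n : ℤ) (N : ℤ), N = 2 ^ v * n → N % 4 = 2 → ¬ (2 : ℤ) ∣ n → v = 1 := by
      intro v n N h8 h9 h10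
      rcases v with _ | _ | v
      · rw [pow_zero, one_mul] at h8
        omega
      · rfl
      · have h11 : N = 4 * (2 ^ v * n) := by rw [h8]; ring
        omega
    have hgoal : (2 * ((2 : ℕ) : ℤ) ^ (k + 1)) = 2 ^ (k + 2) := by push_cast; ring
    rw [hgoal]
    push_cast at hv1 hv2 hn1 hn2
    rcases (show l % 4 = 1 ∨ l % 4 = 3 by omega) with h8 | h8
    · left
      have h9 := hsmall v1 n1 (l + 1) hv1 (by omega) hn1
      subst h9
      have h10 := hv v2 (by omega)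
      rw [hv2]
      exact (pow_dvd_pow 2 h10).mul_right n2
    · right
      have h9 := hsmall v2 n2 (l - 1) hv2 (by omega) hn2
      subst h9
      have h10 := hv v1 (by omega)
      rw [hv1]
      exact (pow_dvd_pow 2 h10).mul_right n1
  · have hp3 : 3 ≤ p := by
      have := hp.out.two_le
      omega
    have h6 : (T 1 - 1) ^ (p ^ v1 + p ^ v2) * (U1 * U2) =
        (T 1 - 1) ^ (2 * p ^ k) * ((T 1 + T (-1)) * (T (-1) * (T 1 + 1)) ^ (2 * p ^ k) *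
          (C κ⁻¹ * T l * H)) := by
      rw [← hL, h5, hd, mul_pow]
      ring
    have h7 := order p hU h6
    have hpq : 3 ≤ p ^ k := by
      calc 3 ≤ p := hp3
        _ = p ^ 1 := (pow_one p).symm
        _ ≤ p ^ k := Nat.pow_le_pow_right hp1 hk
    have hv : ∀ v : ℕ, 2 * p ^ k ≤ p ^ v + 1 → k + 1 ≤ v := by
      intro v hv
      by_contra hcon
      have : p ^ v ≤ p ^ k := Nat.pow_le_pow_right hp1 (by omega)
      omega
    have hcop : IsCoprime (2 : ℤ) ((p : ℤ) ^ (k + 1)) := by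
      apply IsCoprime.pow_right
      rw [Int.isCoprime_iff_gcd_eq_one]
      have h8 : Nat.Coprime 2 p := (Nat.coprime_primes Nat.prime_two hp.out).2 (fun h => hp2 h.symm)
      exact_mod_cast h8
    have hfin : ∀ N : ℤ, (2 : ℤ) ∣ N → ∀ (v : ℕ) (n : ℤ), N = (p : ℤ) ^ v * n → k + 1 ≤ v →
        (2 * p ^ (k + 1) : ℤ) ∣ N := by
      intro N h2N v n h8 h9
      apply hcop.mul_dvd h2N
      rw [h8]
      exact (pow_dvd_pow (p : ℤ) h9).mul_right n
    rcases Nat.eq_zero_or_pos v1 with h8 | h8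
    · left
      subst h8
      rw [pow_zero] at h7
      exact hfin (l - 1) (by omega) v2 n2 hv2 (hv v2 (by omega))
    · rcases Nat.eq_zero_or_pos v2 with h9 | h9
      · right
        subst h9
        rw [pow_zero] at h7
        exact hfin (l + 1) (by omega) v1 n1 hv1 (hv v1 (by omega))
      · exfalso
        have h10 : (p : ℤ) ∣ l + 1 := by
          rw [hv1]; exact (dvd_pow_self (p : ℤ) (by omega)).mul_right n1
        have h11 : (p : ℤ) ∣ l - 1 := by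
          rw [hv2]; exact (dvd_pow_self (p : ℤ) (by omega)).mul_right n2
        have h12 : (p : ℤ) ∣ 2 := by
          have := dvd_sub h10 h11
          have h13 : l + 1 - (l - 1) = 2 := by ring
          rwa [h13] at this
        have h13 : (p : ℤ) ≤ 2 := Int.le_of_dvd (by norm_num) h12
        omega

end arith

end Pool.Agent.TH561.PK
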