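import Pool.Agent.TH561.PK.State
import Pool.Agent.TH561.PK.Arith

/-!
# Unit brackets modulo `p` and the linking number
-/

set_option autoImplicit false

namespace Pool.Agent.TH561.PK

open Pool.Agent.H891R2.Jones Finset LaurentPolynomial

section eval

/-- evaluation of integral Laurent polynomials at a complex number -/
noncomputable def evU (u : ℂ) (hu : u ≠ 0) : ℤ[T;T⁻¹] →+* ℂ :=
  LaurentPolynomial.eval₂ (Int.castRingHom ℂ) (Units.mk0 u hu)

theorem evU_T (u : ℂ) (hu : u ≠ 0) (n : ℤ) : evU u hu (T n) = u ^ n := by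
  unfold evU
  rw [LaurentPolynomial.eval₂_T]
  simp

theorem eq_zero_of_evU (f : ℤ[T;T⁻¹]) (h : ∀ (u : ℂ) (hu : u ≠ 0), u + u⁻¹ ≠ 0 → evU u hu f = 0) :
    f = 0 := by
  obtain ⟨n, g, hg⟩ := LaurentPolynomial.exists_T_pow f
  have hg0 : g.map (Int.castRingHom ℂ) = 0 := by
    apply Polynomial.eq_zero_of_infinite_isRoot
    apply Set.Infinite.mono (s := Set.range (fun j : ℕ => ((j : ℂ) + 1)))
    · rintro _ ⟨j, rfl⟩
      have hu : ((j : ℂ) + 1) ≠ 0 := Nat.cast_add_one_ne_zero j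
      have hz : ((j : ℂ) + 1) + ((j : ℂ) + 1)⁻¹ ≠ 0 := by
        intro h0
        have h1 : (((((j : ℝ) + 1) + ((j : ℝ) + 1)⁻¹ : ℝ)) : ℂ) = 0 := by
          push_cast
          exact h0
        rw [Complex.ofReal_eq_zero] at h1
        have h2 : 0 < ((j : ℝ) + 1) + ((j : ℝ) + 1)⁻¹ := by positivity
        linarith
      have h1 := congrArg (evU _ hu) hg
      rw [map_mul, h _ hu hz, zero_mul] at h1
      unfold evU at h1
      rw [LaurentPolynomial.eval₂_toLaurent] at h1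
      show Polynomial.eval _ _ = 0
      rw [Polynomial.eval_map]
      exact h1
    · apply Set.infinite_range_of_injective
      intro a b hab
      simpa using hab
  have hg1 : g = 0 := by
    rw [← Polynomial.map_eq_zero_iff (f := Int.castRingHom ℂ) (RingHom.injective_int _)]
    exact hg0
  rw [hg1, map_zero] at hg
  have hT : (T n * T (-n : ℤ) : ℤ[T;T⁻¹]) = 1 := by rw [← T_add]; simp
  calc f = f * (T n * T (-n : ℤ)) := by rw [hT, mul_one]
    _ = (f * T n) * T (-n : ℤ) := by ring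
    _ = 0 := by rw [← hg, zero_mul]

end eval

section comb

variable {m : ℕ} (p : ℕ) [hp : Fact p.Prime]

/-- the exponent of a state -/
noncomputable def exq {B : List (Option Bool × ℕ)} (hB : ∀ x ∈ B, x.2 + 1 < m) (i : Sm B) : ℤ :=
  (wgt_mod hB i).choose

theorem exq_spec {B : List (Option Bool × ℕ)} (hB : ∀ x ∈ B, x.2 + 1 < m) (i : Sm B) :
    wgt i - 2 * (inn m (gen i) : ℤ) = clw B + 4 * exq hB i := (wgt_mod hB i).choose_spec

/-- the coefficient of a state -/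
noncomputable def gq {B : List (Option Bool × ℕ)} (hB : ∀ x ∈ B, x.2 + 1 < m) (i : Sm B) :
    (ZMod p)[T;T⁻¹] := (-1) ^ inn m (gen i) * T (exq hB i) * (1 + T 1) ^ inn m (gen i)

theorem sub4_gq {B : List (Option Bool × ℕ)} (hB : ∀ x ∈ B, x.2 + 1 < m) (i : Sm B) :
    T (clw B) * sub4 (ZMod p) (gq p hB i) = T (wgt i) * dF (ZMod p) ^ inn m (gen i) := by
  unfold gq
  rw [map_mul, map_mul, map_pow, map_pow, map_neg, map_one, map_add, map_one, sub4_T, sub4_T]
  have h1 : dF (ZMod p) = -T (-2) * (1 + T (4 * 1)) := by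
    unfold dF
    have h2 : (T (-2) * T (4 * 1) : (ZMod p)[T;T⁻¹]) = T 2 := by rw [← T_add]; norm_num
    rw [neg_mul, mul_add, h2]
    ring
  have h3 := exq_spec hB i
  have h4 : (T (wgt i) : (ZMod p)[T;T⁻¹]) = T (clw B) * T (4 * exq hB i) * T (2 * (inn m (gen i) : ℤ)) := by
    rw [← T_add, ← T_add]
    congr 1
    linarith
  have h5 : (T (2 * (inn m (gen i) : ℤ)) * (T (-2)) ^ inn m (gen i) : (ZMod p)[T;T⁻¹]) = 1 := by
    rw [T_pow, ← T_add]
    have : 2 * (inn m (gen i) : ℤ) + (inn m (gen i) : ℤ) * (-2) = 0 := by ring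
    rw [this, T_zero]
  rw [h1, mul_pow, neg_pow (T (-2) : (ZMod p)[T;T⁻¹]), h4]
  calc T (clw B) * ((-1) ^ inn m (gen i) * T (4 * exq hB i) * (1 + T (4 * 1)) ^ inn m (gen i))
      = T (clw B) * T (4 * exq hB i) * (-1) ^ inn m (gen i) * (1 + T (4 * 1)) ^ inn m (gen i) *
        (1 : (ZMod p)[T;T⁻¹]) := by ring
    _ = _ := by rw [← h5]; ring

/-- the polynomial of the quotient -/
noncomputable def Rq {B : List (Option Bool × ℕ)} (hB : ∀ x ∈ B, x.2 + 1 < m) :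
    Polynomial (ZMod p)[T;T⁻¹] :=
  ∑ i : Sm B, Polynomial.C (gq p hB i) * (Polynomial.X + Polynomial.C 2) ^ (esn m (gen i) / 2)

theorem Phi_Rq (k : ℕ) {B : List (Option Bool × ℕ)} (hB : ∀ x ∈ B, x.2 + 1 < m) :
    T (((p ^ k : ℕ) : ℤ) * clw B) * dF (ZMod p) ^ (m % 2) * Phi p k (Rq p hB) =
      ∑ i : Sm B, (T (wgt i) * dF (ZMod p) ^ inn m (gen i)) ^ (p ^ k) * dF (ZMod p) ^ esn m (gen i) := by
  unfold Rq
  rw [map_sum, Finset.mul_sum]
  refine Finset.sum_congr rfl fun i _ => ?_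
  have h1 : Phi p k (Polynomial.C (gq p hB i) * (Polynomial.X + Polynomial.C 2) ^ (esn m (gen i) / 2)) =
      (sub4 (ZMod p) (gq p hB i)) ^ (p ^ k) * (dF (ZMod p) ^ 2) ^ (esn m (gen i) / 2) := by
    unfold Phi
    rw [map_mul, map_pow, map_add, Polynomial.coe_eval₂RingHom, Polynomial.eval₂_C,
      Polynomial.eval₂_X, Polynomial.eval₂_C, map_ofNat, dF_sq, psi_apply]
  have h2 := (esn_inn (gen i) (gen_mem hB i)).2.1
  have h3 : dF (ZMod p) ^ esn m (gen i) = dF (ZMod p) ^ (m % 2) * (dF (ZMod p) ^ 2) ^ (esn m (gen i) / 2) := by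
    rw [← pow_mul, ← pow_add]
    congr 1
    omega
  rw [h1, h3, ← sub4_gq p hB i, mul_pow, T_pow]
  ring

theorem eps_Rq {B : List (Option Bool × ℕ)} (hB : ∀ x ∈ B, x.2 + 1 < m) :
    (Rq p hB).map (eps p) = ∑ i : Sm B, Polynomial.C ((-2 : ZMod p) ^ inn m (gen i)) *
      (Polynomial.X + Polynomial.C 2) ^ (esn m (gen i) / 2) := by
  unfold Rq
  rw [Polynomial.map_sum]
  refine Finset.sum_congr rfl fun i _ => ?_
  rw [Polynomial.map_mul, Polynomial.map_pow, Polynomial.map_add, Polynomial.map_C,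
    Polynomial.map_X, Polynomial.map_C, map_ofNat]
  congr 2
  unfold gq
  rw [map_mul, map_mul, map_pow, map_pow, map_neg, map_one, map_add, map_one, eps_T, eps_T, mul_one,
    ← mul_pow]
  norm_num

/-- the substitution of `T^2 + T^{-2}` -/
noncomputable def Th : Polynomial (ZMod p) →+* (ZMod p)[T;T⁻¹] :=
  Polynomial.eval₂RingHom C (T 2 + T (-2))

theorem red_C (n : ℤ) : red p (C n) = C (n : ZMod p) := by
  rw [← single_eq_C, ← single_eq_C]
  unfold red
  rw [AddMonoidAlgebra.mapRingHom_single]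
  rfl

theorem comb_main (k : ℕ) (hk : 1 ≤ k) {B : List (Option Bool × ℕ)} (hB : ∀ x ∈ B, x.2 + 1 < m)
    (a : ℤ) (c : ZMod p) (hc : c ≠ 0)
    (h : ∑ i : Sm B, (T (wgt i) * dF (ZMod p) ^ inn m (gen i)) ^ (p ^ k) * dF (ZMod p) ^ esn m (gen i) =
      C c * T a * dF (ZMod p)) (l : ℤ) (hl : l % 2 = (m : ℤ) % 2) (κ : ℤ)
    (hκ : κ = 0 ∨ κ = 1 ∨ κ = -1)
    (hu : ∀ u : ℂ, u ≠ 0 → u + u⁻¹ ≠ 0 →
      ∑ i : Sm B, (-2 : ℂ) ^ inn m (gen i) * (u + u⁻¹) ^ esn m (gen i) = κ * (u ^ l + u ^ (-l))) :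
    (2 * p ^ (k + 1) : ℤ) ∣ l - 1 ∨ (2 * p ^ (k + 1) : ℤ) ∣ l + 1 := by
  rw [← Phi_Rq p k hB] at h
  obtain ⟨hδ, c0, hc0, H, hH⟩ := alg_main p k hk _ (m % 2) (Nat.mod_lt _ (by norm_num)) _ a c hc h
  rw [eps_Rq] at hH
  have h1 := congrArg (Th p) hH
  -- the integral identity
  have h2 : ∑ i : Sm B, (C ((-2 : ℤ) ^ inn m (gen i)) * (T 1 + T (-1)) ^ esn m (gen i) : ℤ[T;T⁻¹]) =
      C κ * (T l + T (-l)) := by
    rw [← sub_eq_zero]
    apply eq_zero_of_evU
    intro u hu0 huz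
    have h3 := hu u hu0 huz
    rw [map_sub, map_sum, map_mul, map_add, evU_T, evU_T, sub_eq_zero]
    have h4 : ∀ n : ℤ, evU u hu0 (C n) = (n : ℂ) := by
      intro n
      unfold evU
      rw [LaurentPolynomial.eval₂_C]
      rfl
    rw [h4, ← h3]
    refine Finset.sum_congr rfl fun i _ => ?_
    rw [map_mul, h4, map_pow, map_add, evU_T, evU_T, zpow_one, zpow_neg_one]
    push_cast
    ring
  have h3 := congrArg (red p) h2
  rw [map_sum, map_mul, red_C, map_add, red_T, red_T] at h3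
  have hcl : (T 1 * T (-1) : (ZMod p)[T;T⁻¹]) = 1 := by rw [← T_add]; simp
  have hT2 : (T 1 ^ 2 : (ZMod p)[T;T⁻¹]) = T 2 := by rw [T_pow]; norm_num
  have hT2' : (T (-1) ^ 2 : (ZMod p)[T;T⁻¹]) = T (-2) := by rw [T_pow]; norm_num
  have hsq : (T 1 + T (-1) : (ZMod p)[T;T⁻¹]) ^ 2 = T 2 + T (-2) + 2 := by
    calc (T 1 + T (-1) : (ZMod p)[T;T⁻¹]) ^ 2 = T 1 ^ 2 + T (-1) ^ 2 + 2 * (T 1 * T (-1)) := by ring
      _ = _ := by rw [hcl, hT2, hT2']; ring
  have hsq' : (T 1 - T (-1) : (ZMod p)[T;T⁻¹]) ^ 2 = T 2 + T (-2) - 2 := by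
    calc (T 1 - T (-1) : (ZMod p)[T;T⁻¹]) ^ 2 = T 1 ^ 2 + T (-1) ^ 2 - 2 * (T 1 * T (-1)) := by ring
      _ = _ := by rw [hcl, hT2, hT2']; ring
  have hThX : Th p Polynomial.X = T 2 + T (-2) := by
    unfold Th; rw [Polynomial.coe_eval₂RingHom, Polynomial.eval₂_X]
  have hThC : ∀ x, Th p (Polynomial.C x) = C x := by
    intro x; unfold Th; rw [Polynomial.coe_eval₂RingHom, Polynomial.eval₂_C]
  have h4 : (T 1 + T (-1)) * Th p (∑ i : Sm B, Polynomial.C ((-2 : ZMod p) ^ inn m (gen i)) *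
      (Polynomial.X + Polynomial.C 2) ^ (esn m (gen i) / 2)) =
      C (κ : ZMod p) * (T l + T (-l)) := by
    rw [← h3, map_sum, Finset.mul_sum]
    refine Finset.sum_congr rfl fun i _ => ?_
    have h5 := (esn_inn (gen i) (gen_mem hB i)).2.1
    have h6 : esn m (gen i) = 1 + 2 * (esn m (gen i) / 2) := by omega
    rw [map_mul (Th p), map_pow (Th p), map_add (Th p), hThX, hThC, hThC, map_ofNat,
      map_mul (red p), red_C, map_pow (red p), map_add (red p), red_T, red_T]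
    conv_rhs => rw [h6, pow_add, pow_one, pow_mul, hsq]
    push_cast
    ring
  have h5 : Th p (Polynomial.C c0 + (Polynomial.X ^ (p ^ k) - Polynomial.C 2) * H) =
      C c0 + (T 1 - T (-1)) ^ (2 * p ^ k) * Th p H := by
    rw [map_add, map_mul, map_sub, map_pow]
    rw [hThX, hThC, hThC, pow_mul, hsq', sub_pow_char_pow]
    congr 3
    have h8 : (2 : (ZMod p)[T;T⁻¹]) = C (2 : ZMod p) := by rw [map_ofNat]
    rw [h8, ← map_pow, ZMod.pow_card_pow]
  rw [h5] at h1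
  rw [h1] at h4
  have hodd : l % 2 = 1 := by
    have : (m : ℤ) % 2 = 1 := by exact_mod_cast hδ
    rw [hl, this]
  refine arith_main p k hk l hodd (κ : ZMod p) ?_ c0 hc0 (Th p H) h4.symm
  rcases hκ with rfl | rfl | rfl
  · left; simp
  · right; left; simp
  · right; right; simp

end comb

end Pool.Agent.TH561.PK
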