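import Pool.Agent.TH561.PK.State

/-!
# Orientations of periodic knots and the twisted trace
-/

set_option autoImplicit false

namespace Pool.Agent.TH561.PK

open Pool.Agent.H891R2.Jones Finset

section col

variable {m : ℕ}

/-- the generators with the opposite sign -/
noncomputable def nK (m : ℕ) (i : ℕ) : Matrix (Fin m → Fin 2) (Fin m → Fin 2) ℂ := -KK m 2 i

theorem WP_nK (L : List ℕ) : WP (nK m) L = (-1 : ℂ) ^ L.length • WP (KK m 2) L := by
  induction L with
  | nil => simp
  | cons i L ih =>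
    rw [WP_cons, WP_cons, ih, List.length_cons, pow_succ, nK, mul_smul_comm, neg_mul, smul_neg,
      mul_neg_one, neg_smul]

/-- the matrix of a letter for `A = 1` -/
noncomputable def PP (m : ℕ) (x : Option Bool × ℕ) : Matrix (Fin m → Fin 2) (Fin m → Fin 2) ℂ :=
  ME 1 (nK m) x

theorem PP_some (b : Bool) (i : ℕ) : PP m (some b, i) = 1 - KK m 2 i := by
  unfold PP ME
  cases b <;>
  simp [opts, WP_cons, nK, sub_eq_add_neg]

theorem PP_none (i : ℕ) : PP m (none, i) = -KK m 2 i := by
  unfold PP ME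
  simp [opts, WP_cons, nK]

/-- exchange of the two colours -/
def flp (x : Fin m → Fin 2) : Fin m → Fin 2 := fun j => Equiv.swap 0 1 (x j)

theorem flp_inj {x y : Fin m → Fin 2} : flp x = flp y ↔ x = y := by
  constructor
  · intro h
    funext j
    exact (Equiv.swap 0 1).injective (congrFun h j)
  · intro h; rw [h]

theorem KK_flp (i : ℕ) (h : i + 1 < m) (x y : Fin m → Fin 2) :
    KK m 2 i (flp x) (flp y) = KK m 2 i x y := by
  rw [KK_apply i h, KK_apply i h]
  apply ind_congr
  unfold flp
  simp only [(Equiv.swap (0 : Fin 2) 1).injective.eq_iff]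

theorem PP_flp (x : Option Bool × ℕ) (h : x.2 + 1 < m) (a b : Fin m → Fin 2) :
    PP m x (flp a) (flp b) = PP m x a b := by
  obtain ⟨o, i⟩ := x
  rcases o with _ | c
  · rw [PP_none, Matrix.neg_apply, Matrix.neg_apply, KK_flp i h]
  · rw [PP_some, Matrix.sub_apply, Matrix.sub_apply, KK_flp i h, Matrix.one_apply, Matrix.one_apply]
    simp only [flp_inj]

/-- the entries are `0`, `1` or `-1` -/
theorem PP_int (x : Option Bool × ℕ) (h : x.2 + 1 < m) (a b : Fin m → Fin 2) :
    ∃ n : ℤ, (n = 0 ∨ n = 1 ∨ n = -1) ∧ PP m x a b = n := by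
  obtain ⟨o, i⟩ := x
  have hK : KK m 2 i a b = 0 ∨ KK m 2 i a b = 1 := by
    rw [KK_apply i h]
    unfold ind
    split_ifs
    · right; rfl
    · left; rfl
  rcases o with _ | c
  · rw [PP_none, Matrix.neg_apply]
    rcases hK with hK | hK
    · exact ⟨0, Or.inl rfl, by rw [hK]; simp⟩
    · exact ⟨-1, Or.inr (Or.inr rfl), by rw [hK]; simp⟩
  · rw [PP_some, Matrix.sub_apply, Matrix.one_apply]
    rcases hK with hK | hK
    · by_cases hab : a = b
      · exact ⟨1, Or.inr (Or.inl rfl), by rw [hK, if_pos hab]; simp⟩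
      · exact ⟨0, Or.inl rfl, by rw [hK, if_neg hab]; simp⟩
    · by_cases hab : a = b
      · exact ⟨0, Or.inl rfl, by rw [hK, if_pos hab]; simp⟩
      · exact ⟨-1, Or.inr (Or.inr rfl), by rw [hK, if_neg hab]; simp⟩

theorem dirOf_ne (i : ℕ) (h : i + 1 < m) (x : Fin m → Fin 2)
    (hx : x ⟨i, Nat.lt_of_succ_lt h⟩ ≠ x ⟨i+1, h⟩) :
    dirOf x ⟨i, Nat.lt_of_succ_lt h⟩ = dirOf x ⟨i+1, h⟩ := by
  have h1 := mt (dirOf_adj i h x).2 hx
  revert h1
  generalize dirOf x ⟨i, Nat.lt_of_succ_lt h⟩ = a
  generalize dirOf x ⟨i+1, h⟩ = b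
  revert a b
  decide

/-- nonzero entries give directions which fit together -/
theorem PP_fits (x : Elem m) (a b : Fin m → Fin 2) (h : PP m (x.1, (x.2 : ℕ)) a b ≠ 0) :
    Fits x (dirOf a) (dirOf b) := by
  obtain ⟨o, i⟩ := x
  have hi : (i : ℕ) + 1 < m := by have := i.2; omega
  have hlf : (Elem.lf (o, i) : Fin m) = ⟨i, Nat.lt_of_succ_lt hi⟩ := rfl
  have hrg : (Elem.rg (o, i) : Fin m) = ⟨i+1, hi⟩ := rfl
  unfold Fits
  rw [hlf, hrg]
  have hoth : (∀ j : Fin m, j ≠ ⟨i, Nat.lt_of_succ_lt hi⟩ → j ≠ ⟨i+1, hi⟩ → a j = b j) →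
      ∀ j : Fin m, j ≠ ⟨i, Nat.lt_of_succ_lt hi⟩ → j ≠ ⟨i+1, hi⟩ → dirOf a j = dirOf b j := by
    intro h1 j h2 h3
    unfold dirOf
    rw [h1 j h2 h3]
  rcases o with _ | c
  · simp only at h ⊢
    rw [PP_none, Matrix.neg_apply, KK_apply _ hi] at h
    by_cases h1 : a ⟨i, Nat.lt_of_succ_lt hi⟩ = a ⟨i+1, hi⟩ ∧
      b ⟨i, Nat.lt_of_succ_lt hi⟩ = b ⟨i+1, hi⟩ ∧
      ∀ j : Fin m, j ≠ ⟨i, Nat.lt_of_succ_lt hi⟩ → j ≠ ⟨i+1, hi⟩ → a j = b j
    · refine ⟨hoth h1.2.2, ?_, ?_⟩
      · rw [(dirOf_adj i hi a).1 h1.1]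
        simp
      · rw [(dirOf_adj i hi b).1 h1.2.1]
        simp
    · rw [ind_neg h1, neg_zero] at h
      exact absurd rfl h
  · simp only at h ⊢
    rw [PP_some, Matrix.sub_apply, Matrix.one_apply, KK_apply _ hi] at h
    by_cases h1 : a ⟨i, Nat.lt_of_succ_lt hi⟩ = a ⟨i+1, hi⟩ ∧
      b ⟨i, Nat.lt_of_succ_lt hi⟩ = b ⟨i+1, hi⟩ ∧
      ∀ j : Fin m, j ≠ ⟨i, Nat.lt_of_succ_lt hi⟩ → j ≠ ⟨i+1, hi⟩ → a j = b j
    · rw [ind_pos h1] at h
      have hab : a ≠ b := by
        intro hab
        rw [if_pos hab, sub_self] at h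
        exact h rfl
      have hne : a ⟨i, Nat.lt_of_succ_lt hi⟩ ≠ b ⟨i, Nat.lt_of_succ_lt hi⟩ := by
        intro h2
        apply hab
        funext j
        by_cases hj : j = ⟨i, Nat.lt_of_succ_lt hi⟩
        · rw [hj, h2]
        · by_cases hj' : j = ⟨i+1, hi⟩
          · rw [hj', ← h1.1, ← h1.2.1, h2]
          · exact h1.2.2 j hj hj'
      refine ⟨hoth h1.2.2, ?_, ?_⟩
      · unfold dirOf
        rw [← h1.2.1]
        revert hne
        generalize a ⟨i, Nat.lt_of_succ_lt hi⟩ = s
        generalize b ⟨i, Nat.lt_of_succ_lt hi⟩ = t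
        intro hne
        simp only
        have h2 : (i : ℕ) % 2 = 0 ∨ (i : ℕ) % 2 = 1 := by omega
        rcases h2 with h2 | h2
        · have h3 : ((i : ℕ)+1) % 2 = 1 := by omega
          rw [h2, h3]
          revert s t
          decide
        · have h3 : ((i : ℕ)+1) % 2 = 0 := by omega
          rw [h2, h3]
          revert s t
          decide
      · unfold dirOf
        rw [← h1.1]
        revert hne
        generalize a ⟨i, Nat.lt_of_succ_lt hi⟩ = s
        generalize b ⟨i, Nat.lt_of_succ_lt hi⟩ = t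
        intro hne
        simp only
        have h2 : (i : ℕ) % 2 = 0 ∨ (i : ℕ) % 2 = 1 := by omega
        rcases h2 with h2 | h2
        · have h3 : ((i : ℕ)+1) % 2 = 1 := by omega
          rw [h2, h3]
          revert s t
          decide
        · have h3 : ((i : ℕ)+1) % 2 = 0 := by omega
          rw [h2, h3]
          revert s t
          decide
    · rw [ind_neg h1, sub_zero] at h
      have hab : a = b := by
        by_contra hab
        rw [if_neg hab] at h
        exact h rfl
      subst hab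
      have hne : a ⟨i, Nat.lt_of_succ_lt hi⟩ ≠ a ⟨i+1, hi⟩ :=
        fun h2 => h1 ⟨h2, h2, fun _ _ _ => rfl⟩
      have h3 := dirOf_ne i hi a hne
      exact ⟨fun _ _ _ => rfl, h3, h3.symm⟩

/-- the colours which belong to given directions -/
def colOf (d : Fin m → Bool) : Fin m → Fin 2 := fun j => if d j != ((j : ℕ) % 2 == 0) then 0 else 1

theorem dirOf_colOf (d : Fin m → Bool) : dirOf (colOf d) = d := by
  funext j
  unfold dirOf colOf
  generalize d j = a
  generalize ((j : ℕ) % 2 == 0) = b
  revert a b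
  decide

theorem colOf_dirOf (x : Fin m → Fin 2) : colOf (dirOf x) = x := by
  funext j
  show (if ((x j == 0) != ((j : ℕ) % 2 == 0)) != ((j : ℕ) % 2 == 0) then (0 : Fin 2) else 1) = x j
  generalize x j = a
  generalize ((j : ℕ) % 2 == 0) = b
  revert a b
  decide

theorem colOf_not (d : Fin m → Bool) : colOf (fun j => !(d j)) = flp (colOf d) := by
  funext j
  show (if (!(d j)) != ((j : ℕ) % 2 == 0) then (0 : Fin 2) else 1) =
    Equiv.swap 0 1 (if d j != ((j : ℕ) % 2 == 0) then (0 : Fin 2) else 1)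
  generalize d j = a
  generalize ((j : ℕ) % 2 == 0) = b
  revert a b
  decide

theorem tw_colOf {u : ℂ} (hu : u ≠ 0) (d : Fin m → Bool) :
    tw u (colOf d) = u ^ (∑ j, if d j then (1 : ℤ) else -1) := by
  unfold tw
  rw [zpow_sum _ hu]
  refine Finset.prod_congr rfl fun j _ => ?_
  rw [dirOf_colOf]
  cases d j <;> simp

end col

section knot

variable {M L : ℕ}

/-- two orientations agree or disagree along every piece -/
theorem piece_agree (w : Fin L → Elem M) (dir dir' : Fin L × Fin M → Bool) (h : Oriented w dir)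
    (h' : Oriented w dir') (p q : Fin L × Fin M) (hpq : Piece (annular w dir) p q) :
    (dir p = dir' p) ↔ (dir q = dir' q) := by
  rcases hpq with hpq | ⟨x, hx, hpq⟩
  · unfold annular at hpq
    simp only [List.mem_flatMap, List.mem_finRange, true_and] at hpq
    obtain ⟨t, ht⟩ := hpq
    have h1 := h t
    have h2 := h' t
    unfold Fits at h1 h2
    unfold levelArcs at ht
    rw [List.mem_append] at ht
    rcases ht with ht | ht
    · rw [List.mem_map] at ht
      obtain ⟨j, hj, hj'⟩ := ht
      simp only [List.mem_filter, List.mem_finRange, true_and, decide_eq_true_eq, ne_eq] at hj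
      have e1 := h1.1 j hj.1 hj.2
      have e2 := h2.1 j hj.1 hj.2
      simp only at e1 e2
      unfold arrow at hj'
      split_ifs at hj'
      · simp only [Prod.mk.injEq] at hj'
        rw [← hj'.1, ← hj'.2, e1, e2]
      · simp only [Prod.mk.injEq] at hj'
        rw [← hj'.1, ← hj'.2, e1, e2]
    · rcases hw : (w t).1 with _ | b
      · rw [hw] at ht h1 h2
        simp only [List.mem_cons, List.not_mem_nil, or_false] at ht
        obtain ⟨_, a1, a2⟩ := h1
        obtain ⟨_, b1, b2⟩ := h2
        simp only at a1 a2 b1 b2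
        have hflip : ∀ s1 s2 r1 r2 : Bool, s1 ≠ s2 → r1 ≠ r2 → ((s1 = r1) ↔ (s2 = r2)) := by decide
        rcases ht with ht | ht
        · unfold arrow at ht
          split_ifs at ht
          · simp only [Prod.mk.injEq] at ht
            rw [ht.1, ht.2]
            exact hflip _ _ _ _ a1 b1
          · simp only [Prod.mk.injEq] at ht
            rw [ht.1, ht.2]
            exact (hflip _ _ _ _ a1 b1).symm
        · unfold arrow at ht
          split_ifs at ht
          · simp only [Prod.mk.injEq] at ht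
            rw [ht.1, ht.2]
            exact hflip _ _ _ _ a2 b2
          · simp only [Prod.mk.injEq] at ht
            rw [ht.1, ht.2]
            exact (hflip _ _ _ _ a2 b2).symm
      · rw [hw] at ht
        simp at ht
  · unfold annular at hx
    simp only [List.mem_flatMap, List.mem_finRange, true_and] at hx
    obtain ⟨t, ht⟩ := hx
    have h1 := h t
    have h2 := h' t
    unfold Fits at h1 h2
    unfold levelCrossings at ht
    rcases hw : (w t).1 with _ | b
    · rw [hw] at ht
      simp at ht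
    · rw [hw] at ht h1 h2
      obtain ⟨_, a1, a2⟩ := h1
      obtain ⟨_, b1, b2⟩ := h2
      simp only at a1 a2 b1 b2
      cases b
      · simp only [List.mem_singleton] at ht
        rw [ht] at hpq
        simp only at hpq
        rcases hpq with ⟨hp, hq⟩ | ⟨hp, hq⟩
        · rw [hp, hq, a1, b1]
        · rw [hp, hq, a2, b2]
      · simp only [List.mem_singleton] at ht
        rw [ht] at hpq
        simp only at hpq
        rcases hpq with ⟨hp, hq⟩ | ⟨hp, hq⟩
        · rw [hp, hq, a2, b2]
        · rw [hp, hq, a1, b1]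

/-- a knot has only two orientations -/
theorem two_orientations (w : Fin L → Elem M) (dir dir' : Fin L × Fin M → Bool) (h : Oriented w dir)
    (h' : Oriented w dir') (hK : IsKnot (annular w dir)) :
    (∀ p, dir' p = dir p) ∨ (∀ p, dir' p = !(dir p)) := by
  have h1 : ∀ p q, (dir p = dir' p) ↔ (dir q = dir' q) := by
    intro p q
    have := hK p q
    induction this with
    | rel x y hxy => exact piece_agree w dir dir' h h' x y hxy
    | refl x => exact Iff.rfl
    | symm x y _ ih => exact ih.symm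
    | trans x y z _ _ ih1 ih2 => exact ih1.trans ih2
  by_cases hall : ∀ p, dir p = dir' p
  · left; intro p; exact (hall p).symm
  · right
    push Not at hall
    obtain ⟨p0, hp0⟩ := hall
    intro p
    have h2 : ¬ (dir p = dir' p) := fun h3 => hp0 ((h1 p p0).1 h3)
    revert h2
    generalize dir p = a
    generalize dir' p = b
    revert a b
    decide

end knot

section power

variable {M : ℕ}

/-- the `q`-th power of a word -/
def pw {l : ℕ} (q : ℕ) (w : Fin l → Elem M) : Fin (q * l) → Elem M := fun i => w i.modNat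

theorem finRotate_val {n : ℕ} (i : Fin n) : ((finRotate n i : Fin n) : ℕ) = (i + 1) % n := by
  rcases n with _ | n
  · exact i.elim0
  · by_cases h : (i : ℕ) < n
    · have h1 : finRotate (n+1) i = ⟨i + 1, Nat.succ_lt_succ h⟩ := finRotate_of_lt h
      rw [h1]
      simp only
      rw [Nat.mod_eq_of_lt (Nat.succ_lt_succ h)]
    · have h1 : (i : ℕ) = n := by have := i.2; omega
      have h2 : i = Fin.last n := Fin.ext h1
      rw [h2, finRotate_last]
      simp

theorem rotate_modNat {l q : ℕ} (s : Fin (q * l)) :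
    (finRotate (q * l) s).modNat = finRotate l s.modNat := by
  apply Fin.ext
  rw [finRotate_val]
  simp only [Fin.modNat]
  rw [finRotate_val, Nat.mod_mod_of_dvd _ (Dvd.intro_left q rfl), Nat.mod_add_mod]

theorem oriented_lift {l : ℕ} (q : ℕ) (w : Fin l → Elem M) (dir : Fin l × Fin M → Bool)
    (h : Oriented w dir) : Oriented (pw q w) (fun s => dir (s.1.modNat, s.2)) := by
  intro s
  have := h s.modNat
  unfold pw
  simp only
  rw [rotate_modNat]
  exact this

/-- the twisted trace of the quotient of a knot -/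
theorem twisted_sum {l : ℕ} (hl : 0 < l) (hM : 0 < M) (q : ℕ) (hq : 0 < q * l) (v : Fin l → Elem M)
    (dir : Fin (q * l) × Fin M → Bool) (ho : Oriented (pw q v) dir)
    (hK : IsKnot (annular (pw q v) dir)) :
    ∃ κ : ℤ, (κ = 0 ∨ κ = 1 ∨ κ = -1) ∧ ∀ u : ℂ, u ≠ 0 → u + u⁻¹ ≠ 0 →
      ∑ i : Sm (toW v), (-2 : ℂ) ^ inn M (gen i) * (u + u⁻¹) ^ esn M (gen i) =
        κ * (u ^ (linking dir ⟨0, hq⟩) + u ^ (-(linking dir ⟨0, hq⟩))) := by
  have hq0 : 0 < q := Nat.pos_of_mul_pos_right hq
  -- the embedding of the first period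
  have hemb : ∀ t : Fin l, (t : ℕ) < q * l := fun t => lt_of_lt_of_le t.2 (Nat.le_mul_of_pos_left l hq0)
  let em : Fin l → Fin (q * l) := fun t => ⟨t, hemb t⟩
  have hmod : ∀ t : Fin l, (em t).modNat = t := by
    intro t
    apply Fin.ext
    simp only [Fin.modNat, em]
    exact Nat.mod_eq_of_lt t.2
  let fp : Fin l → (Fin M → Fin 2) := fun t => colOf (fun j => dir (em t, j))
  let fm : Fin l → (Fin M → Fin 2) := fun t => flp (fp t)
  have hmem : ∀ t, (v t).2.val + 1 < M := fun t => by have := (v t).2.2; omega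
  choose n hn1 hn2 using fun t => PP_int ((v t).1, ((v t).2 : ℕ)) (hmem t) (fp t) (fp (finRotate l t))
  refine ⟨∏ t, n t, ?_, fun u hu hz => ?_⟩
  · apply Finset.prod_induction n (fun x => x = 0 ∨ x = 1 ∨ x = -1)
    · rintro a b (rfl | rfl | rfl) (rfl | rfl | rfl) <;> simp
    · right; left; rfl
    · intro t _; exact hn1 t
  · -- the sum is a trace
    have h1 : ∑ i : Sm (toW v), (-2 : ℂ) ^ inn M (gen i) * (u + u⁻¹) ^ esn M (gen i) =
        Matrix.trace (Matrix.diagonal (tw u) * MW 1 (nK M) (toW v)) := by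
      rw [MW_sum one_ne_zero, Finset.mul_sum, Matrix.trace_sum]
      refine Finset.sum_congr rfl fun i _ => ?_
      rw [one_zpow, one_smul, WP_nK, mul_smul_comm, Matrix.trace_smul,
        trace_U (gen i) (gen_mem (toW_mem v) i) hu hz, smul_eq_mul]
      have h2 := (esn_inn (gen i) (gen_mem (toW_mem v) i)).2.2.1
      have h3 : (-1 : ℂ) ^ (gen i).length = (-1) ^ inn M (gen i) := by
        rw [neg_one_pow_eq_pow_mod_two, h2, ← neg_one_pow_eq_pow_mod_two]
      rw [h3]
      have h4 : (-2 : ℂ) = (-1) * 2 := by norm_num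
      rw [h4, mul_pow]
      ring
    have h2 : MW 1 (nK M) (toW v) = (List.ofFn (fun t => PP M ((v t).1, ((v t).2 : ℕ)))).prod := by
      unfold MW toW
      rw [List.map_ofFn]
      rfl
    rw [h1, h2, trace_prod l hl]
    -- only two terms
    have hzero : ∀ f : Fin l → (Fin M → Fin 2), f ≠ fp → f ≠ fm →
        tw u (f ⟨0, hl⟩) * ∏ t, PP M ((v t).1, ((v t).2 : ℕ)) (f t) (f (finRotate l t)) = 0 := by
      intro f hf1 hf2
      by_contra hne
      have h3 := (mul_ne_zero_iff.1 hne).2
      rw [Finset.prod_ne_zero_iff] at h3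
      have h4 : Oriented v (fun s => dirOf (f s.1) s.2) :=
        fun t => PP_fits (v t) (f t) (f (finRotate l t)) (h3 t (Finset.mem_univ t))
      have h5 := oriented_lift q v _ h4
      rcases two_orientations (pw q v) dir _ ho h5 hK with h6 | h6
      · apply hf1
        funext t
        have h7 : dirOf (f t) = fun j => dir (em t, j) := by
          funext j
          have h8 := h6 (em t, j)
          simp only at h8
          rw [hmod] at h8
          exact h8
        show f t = colOf (fun j => dir (em t, j))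
        rw [← h7, colOf_dirOf]
      · apply hf2
        funext t
        have h7 : dirOf (f t) = fun j => !(dir (em t, j)) := by
          funext j
          have h8 := h6 (em t, j)
          simp only at h8
          rw [hmod] at h8
          exact h8
        show f t = flp (colOf (fun j => dir (em t, j)))
        rw [← colOf_not, ← h7, colOf_dirOf]
    have hpm : fp ≠ fm := by
      intro h3
      have h4 := congrFun (congrFun h3 ⟨0, hl⟩) ⟨0, hM⟩
      have h5 : fp ⟨0, hl⟩ ⟨0, hM⟩ = Equiv.swap 0 1 (fp ⟨0, hl⟩ ⟨0, hM⟩) := h4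
      revert h5
      generalize fp ⟨0, hl⟩ ⟨0, hM⟩ = a
      revert a
      decide
    rw [← Finset.sum_subset (Finset.subset_univ {fp, fm}) (fun f _ hf => by
      simp only [Finset.mem_insert, Finset.mem_singleton, not_or] at hf
      exact hzero f hf.1 hf.2), Finset.sum_pair hpm]
    have h3 : ∏ t, PP M ((v t).1, ((v t).2 : ℕ)) (fp t) (fp (finRotate l t)) = ((∏ t, n t : ℤ) : ℂ) := by
      push_cast
      refine Finset.prod_congr rfl fun t _ => ?_
      exact hn2 t
    have h4 : ∏ t, PP M ((v t).1, ((v t).2 : ℕ)) (fm t) (fm (finRotate l t)) = ((∏ t, n t : ℤ) : ℂ) := by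
      rw [← h3]
      refine Finset.prod_congr rfl fun t _ => ?_
      exact PP_flp _ (hmem t) _ _
    rw [h3, h4]
    have h5 : tw u (fp ⟨0, hl⟩) = u ^ (linking dir ⟨0, hq⟩) := tw_colOf hu _
    have h6 : tw u (fm ⟨0, hl⟩) = u ^ (-(linking dir ⟨0, hq⟩)) := by
      show tw u (flp (colOf (fun j => dir (em ⟨0, hl⟩, j)))) = _
      rw [← colOf_not, tw_colOf hu]
      congr 1
      unfold linking
      rw [← Finset.sum_neg_distrib]
      refine Finset.sum_congr rfl fun j _ => ?_
      have : em ⟨0, hl⟩ = ⟨0, hq⟩ := rfl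
      rw [this]
      cases dir (⟨0, hq⟩, j) <;> simp
    rw [h5, h6]
    ring

end power

end Pool.Agent.TH561.PK
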