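import Pool.Agent.TH561.PK.Closed
import Pool.Agent.TH561.PK.Comb
import Pool.Agent.TH561.PK.Knot

/-!
# Periodic knots whose Jones polynomial is a unit modulo `p`
-/

set_option autoImplicit false

namespace Pool.Agent.TH561.PK

open Pool.Agent.H891R2.Jones Finset LaurentPolynomial

section main

variable {M l : ℕ}

theorem toW_pw (q : ℕ) (v : Fin l → Elem M) : toW (pw q v) = (List.replicate q (toW v)).flatten := by
  unfold toW pw
  rw [List.ofFn_mul]
  congr 1
  rw [← List.ofFn_const]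
  congr 1
  funext i
  congr 1
  funext j
  have : (⟨(i : ℕ) * l + j, by
      have h1 := i.2; have h2 := j.2
      calc (i : ℕ) * l + j < i * l + l := by omega
        _ = (i + 1) * l := by ring
        _ ≤ q * l := Nat.mul_le_mul_right _ h1⟩ : Fin (q * l)).modNat = j := by
    apply Fin.ext
    simp only [Fin.modNat]
    rw [Nat.add_comm, Nat.add_mul_mod_self_right, Nat.mod_eq_of_lt j.2]
  simp only [this]

theorem red_mono (p : ℕ) [Fact p.Prime] (f : ℤ[T;T⁻¹]) (a : ℤ)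
    (ha' : ∀ b, b ≠ a → (p : ℤ) ∣ f.coeff b) : red p f = C ((f.coeff a : ℤ) : ZMod p) * T a := by
  apply LaurentPolynomial.ext
  intro b
  rw [coeff_CT]
  have h1 : (red p f).coeff b = ((f.coeff b : ℤ) : ZMod p) := by
    unfold red
    rw [AddMonoidAlgebra.coeff_mapRingHom]
    rfl
  rw [h1]
  split_ifs with h
  · rw [h]
  · exact (ZMod.intCast_zmod_eq_zero_iff_dvd _ p).2 (ha' b (fun h' => h h'.symm))

theorem main (p k : ℕ) (hp : p.Prime) (hk : 1 ≤ k) (v : Fin l → Elem M)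
    (dir : Fin (p ^ k * l) × Fin M → Bool) (ho : Oriented (pw (p ^ k) v) dir)
    (hK : IsKnot (annular (pw (p ^ k) v) dir)) (a : ℤ)
    (ha : ¬ (p : ℤ) ∣ (annular (pw (p ^ k) v) dir).fPoly.coeff a)
    (ha' : ∀ b, b ≠ a → (p : ℤ) ∣ (annular (pw (p ^ k) v) dir).fPoly.coeff b)
    (t : Fin (p ^ k * l)) :
    (2 * p ^ (k + 1) : ℤ) ∣ linking dir t - 1 ∨ (2 * p ^ (k + 1) : ℤ) ∣ linking dir t + 1 := by
  have : Fact p.Prime := ⟨hp⟩
  have hq : 0 < p ^ k * l := lt_of_le_of_lt (Nat.zero_le _) t.2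
  have hl : 0 < l := Nat.pos_of_mul_pos_left hq
  have hM : 0 < M := by
    have := (v ⟨0, hl⟩).2.2
    omega
  rw [linking_const _ dir ho t ⟨0, hq⟩]
  set D := annular (pw (p ^ k) v) dir with hD
  have h1 := red_mono p D.fPoly a ha'
  have hc : ((D.fPoly.coeff a : ℤ) : ZMod p) ≠ 0 := by
    intro h
    exact ha ((ZMod.intCast_zmod_eq_zero_iff_dvd _ p).1 h)
  obtain ⟨κ, hκ, hu⟩ := twisted_sum hl hM (p ^ k) hq v dir ho hK
  -- the bracket
  have hbr : ∃ c : ZMod p, c ≠ 0 ∧ red p D.bracket = C c * T (a + 3 * D.writhe) := by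
    have h2 : D.fPoly = (if Even D.writhe then 1 else -1) * T (-3 * D.writhe) * D.bracket := rfl
    have hT : (T (-3 * D.writhe) * T (3 * D.writhe) : ℤ[T;T⁻¹]) = 1 := by
      rw [← T_add]
      have : -3 * D.writhe + 3 * D.writhe = 0 := by ring
      rw [this, T_zero]
    by_cases hev : Even D.writhe
    · refine ⟨_, hc, ?_⟩
      rw [if_pos hev, one_mul] at h2
      have h3 : D.bracket = D.fPoly * T (3 * D.writhe) := by
        rw [h2]
        calc D.bracket = (T (-3 * D.writhe) * T (3 * D.writhe)) * D.bracket := by rw [hT, one_mul]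
          _ = _ := by ring
      rw [h3, map_mul, h1, red_T, mul_assoc, ← T_add]
    · refine ⟨-((D.fPoly.coeff a : ℤ) : ZMod p), neg_ne_zero.2 hc, ?_⟩
      rw [if_neg hev] at h2
      have h3 : D.bracket = -(D.fPoly * T (3 * D.writhe)) := by
        rw [h2]
        calc D.bracket = (T (-3 * D.writhe) * T (3 * D.writhe)) * D.bracket := by rw [hT, one_mul]
          _ = _ := by ring
      rw [h3, map_neg, map_mul, h1, red_T, mul_assoc, ← T_add, map_neg, neg_mul]
  obtain ⟨c, hc', hbr⟩ := hbr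
  have h3 := bracket_modp hq hM (pw (p ^ k) v) dir p k (toW v) (toW_mem v) (toW_pw (p ^ k) v)
  rw [map_mul, red_dl, ← hD, hbr, mul_comm] at h3
  exact comb_main p k hk (toW_mem v) _ c hc' h3.symm (linking dir ⟨0, hq⟩) (linking_parity dir _) κ hκ hu

/-- the same for a word of length `L` which is a `p ^ k`-th power -/
theorem main' (p k : ℕ) (hp : p.Prime) (hk : 1 ≤ k) (L : ℕ) (w : Fin L → Elem M)
    (dir : Fin L × Fin M → Bool) (ho : Oriented w dir) (hK : IsKnot (annular w dir))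
    (hL : L = p ^ k * l) (v : Fin l → Elem M)
    (hv : ∀ (i : Fin L) (j : Fin l), (i : ℕ) % l = j → w i = v j) (a : ℤ)
    (ha : ¬ (p : ℤ) ∣ (annular w dir).fPoly.coeff a)
    (ha' : ∀ b, b ≠ a → (p : ℤ) ∣ (annular w dir).fPoly.coeff b) (t : Fin L) :
    (2 * p ^ (k + 1) : ℤ) ∣ linking dir t - 1 ∨ (2 * p ^ (k + 1) : ℤ) ∣ linking dir t + 1 := by
  subst hL
  have hw : w = pw (p ^ k) v := by
    funext i
    exact hv i i.modNat rfl
  subst hw
  exact main p k hp hk v dir ho hK a ha ha' t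

/-- the theorem for a diagram with a symmetry of order `n` -/
theorem main_n (p k n : ℕ) (hp : p.Prime) (hk : 1 ≤ k) (hn : p ^ k ∣ n) (w : Fin l → Elem M)
    (dir : Fin (n * l) × Fin M → Bool) (ho : Oriented (pw n w) dir)
    (hK : IsKnot (annular (pw n w) dir)) (a : ℤ)
    (ha : ¬ (p : ℤ) ∣ (annular (pw n w) dir).fPoly.coeff a)
    (ha' : ∀ b, b ≠ a → (p : ℤ) ∣ (annular (pw n w) dir).fPoly.coeff b) (t : Fin (n * l)) :
    (2 * p ^ (k + 1) : ℤ) ∣ linking dir t - 1 ∨ (2 * p ^ (k + 1) : ℤ) ∣ linking dir t + 1 := by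
  obtain ⟨n', hn'⟩ := hn
  refine main' (l := n' * l) p k hp hk (n * l) (pw n w) dir ho hK (by rw [hn', mul_assoc])
    (pw n' w) (fun i j hij => ?_) a ha ha' t
  unfold pw
  congr 1
  apply Fin.ext
  simp only [Fin.modNat]
  rw [← hij, Nat.mod_mod_of_dvd _ (Dvd.intro_left n' rfl)]

theorem one_coeff (p : ℕ) (hp : p.Prime) (f : ℤ[T;T⁻¹]) (h : f = 1) :
    ¬ (p : ℤ) ∣ f.coeff 0 ∧ ∀ b, b ≠ 0 → (p : ℤ) ∣ f.coeff b := by
  subst h
  constructor
  · rw [← T_zero, T_apply, if_pos rfl]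
    intro h
    have := Int.le_of_dvd (by norm_num) h
    have := hp.two_le
    omega
  · intro b hb
    rw [← T_zero, T_apply, if_neg (fun h => hb h.symm)]
    exact dvd_zero _

end main

end Pool.Agent.TH561.PK
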