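import Pool.Agent.TH561.PB.Main

/-!
# Laurent polynomials of the form `∑ r_j(x^q) (x + 1/x)^j` modulo a prime
-/

set_option autoImplicit false

namespace Pool.Agent.TH561.PK

open LaurentPolynomial Finset

section bot

variable {F : Type*} [Field F]

/-- `t` is the smallest exponent of `f` -/
def Bot (f : F[T;T⁻¹]) (t : ℤ) : Prop := Top (invert f) (-t)

theorem Bot.coeff {f : F[T;T⁻¹]} {t : ℤ} (h : Bot f t) : f.coeff t ≠ 0 := by
  have := h.1
  rw [invert_apply, neg_neg] at this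
  exact this

theorem Bot.le {f : F[T;T⁻¹]} {t : ℤ} (h : Bot f t) {n : ℤ} (hn : f.coeff n ≠ 0) : t ≤ n := by
  by_contra hcon
  apply hn
  have := h.2 (-n) (by omega)
  rw [invert_apply, neg_neg] at this
  exact this

theorem Top.le {f : F[T;T⁻¹]} {t : ℤ} (h : Top f t) {n : ℤ} (hn : f.coeff n ≠ 0) : n ≤ t := by
  by_contra hcon
  exact hn (h.2 n (by omega))

theorem Bot.mul {f g : F[T;T⁻¹]} {t u : ℤ} (hf : Bot f t) (hg : Bot g u) : Bot (f * g) (t + u) := by
  have := TH561.Top.mul hf hg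
  unfold Bot
  rw [map_mul]
  convert this using 1
  ring

theorem Bot.pow {f : F[T;T⁻¹]} {t : ℤ} (hf : Bot f t) (n : ℕ) : Bot (f ^ n) (n * t) := by
  have := TH561.Top.pow hf n
  unfold Bot
  rw [map_pow]
  convert this using 1
  ring

theorem exists_bot (f : F[T;T⁻¹]) (hf : f ≠ 0) : ∃ t, Bot f t := by
  have hne : invert f ≠ 0 := by
    intro h
    apply hf
    have := congrArg invert h
    rw [map_zero] at this
    rw [← this]
    exact (involutive_invert f).symm
  obtain ⟨t, ht⟩ := exists_top (invert f) hne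
  exact ⟨-t, by unfold Bot; rw [neg_neg]; exact ht⟩

theorem sum_bot {ι : Type*} (S : Finset ι) (f : ι → F[T;T⁻¹]) (t : ι → ℤ)
    (h : ∀ i ∈ S, f i = 0 ∨ Bot (f i) (t i))
    (hinj : ∀ i ∈ S, ∀ j ∈ S, f i ≠ 0 → f j ≠ 0 → t i = t j → i = j)
    {i0 : ι} (hi0 : i0 ∈ S) (h0 : f i0 ≠ 0) :
    ∃ c, c ≤ t i0 ∧ (∑ i ∈ S, f i).coeff c ≠ 0 := by
  have hz : ∀ i, invert (f i) ≠ 0 → f i ≠ 0 := fun i hi h => hi (by rw [h, map_zero])
  have hz' : invert (f i0) ≠ 0 := by
    intro h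
    apply h0
    have := congrArg invert h
    rw [map_zero] at this
    rw [← this]
    exact (involutive_invert _).symm
  obtain ⟨c, h1, h2⟩ := sum_top S (fun i => invert (f i)) (fun i => -t i) (by
      intro i hi
      rcases h i hi with h1 | h1
      · left; simp only [h1, map_zero]
      · right; exact h1) (by
      intro i hi j hj h1 h2 h3
      exact hinj i hi j hj (hz i h1) (hz j h2) (by simpa using h3)) hi0 hz'
  refine ⟨-c, by linarith, ?_⟩
  rw [← map_sum, invert_apply] at h2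
  exact h2

/-- the substitution of `T ^ 4` for `T` -/
noncomputable def sub4 (F : Type*) [Field F] : F[T;T⁻¹] →+* F[T;T⁻¹] :=
  AddMonoidAlgebra.mapDomainRingHom F (AddMonoidHom.mulLeft (4 : ℤ))

theorem sub4_apply (f : F[T;T⁻¹]) :
    sub4 F f = AddMonoidAlgebra.mapDomain (AddMonoidHom.mulLeft (4 : ℤ)) f := rfl

theorem sub4_T (n : ℤ) : sub4 F (T n) = T (4 * n) := by
  rw [sub4_apply]
  unfold T
  rw [AddMonoidAlgebra.mapDomain_single]
  rfl

theorem inj4 : Function.Injective (AddMonoidHom.mulLeft (4 : ℤ)) := by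
  intro a b h
  simp only [AddMonoidHom.coe_mulLeft] at h
  omega

theorem sub4_coeff (f : F[T;T⁻¹]) (n : ℤ) : (sub4 F f).coeff (4 * n) = f.coeff n := by
  rw [sub4_apply]
  exact Finsupp.mapDomain_apply inj4 f.coeff n

theorem sub4_coeff' (f : F[T;T⁻¹]) (n : ℤ) (h : (sub4 F f).coeff n ≠ 0) :
    ∃ k, n = 4 * k ∧ f.coeff k ≠ 0 := by
  by_cases hn : n ∈ Set.range (AddMonoidHom.mulLeft (4 : ℤ))
  · obtain ⟨k, rfl⟩ := hn
    refine ⟨k, rfl, ?_⟩
    rw [← sub4_coeff f k]
    exact h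
  · exfalso
    apply h
    rw [sub4_apply]
    exact Finsupp.mapDomain_of_notMem_range f.coeff n hn

theorem sub4_top {f : F[T;T⁻¹]} {t : ℤ} (h : Top f t) : Top (sub4 F f) (4 * t) := by
  constructor
  · rw [sub4_coeff]; exact h.1
  · intro n hn
    by_contra hcon
    obtain ⟨k, rfl, hk⟩ := sub4_coeff' f n hcon
    have := Top.le h hk
    omega

theorem sub4_bot {f : F[T;T⁻¹]} {t : ℤ} (h : Bot f t) : Bot (sub4 F f) (4 * t) := by
  constructor
  · rw [invert_apply, neg_neg, sub4_coeff]; exact h.coeff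
  · intro n hn
    rw [invert_apply]
    by_contra hcon
    obtain ⟨k, hk1, hk⟩ := sub4_coeff' f (-n) hcon
    have := h.le hk
    omega

/-- the element `x + 1/x` for `x = T ^ 4` -/
noncomputable def yy (F : Type*) [Field F] : F[T;T⁻¹] := T 4 + T (-4)

theorem top_yy : Top (yy F) 4 := by
  unfold yy
  constructor
  · simp
  · intro n hn
    have h1 : (4 : ℤ) ≠ n := by omega
    have h2 : (-4 : ℤ) ≠ n := by omega
    simp [T_apply, h1, h2]

theorem bot_yy : Bot (yy F) (-4) := by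
  have h : invert (yy F) = yy F := by
    unfold yy
    rw [map_add, invert_T, invert_T, neg_neg, add_comm]
  unfold Bot
  rw [h, neg_neg]
  exact top_yy

theorem dF_sq : (dF F) ^ 2 = yy F + 2 := by
  unfold dF yy
  have h : (T 2 * T (-2) : F[T;T⁻¹]) = 1 := by rw [← T_add]; simp
  have h2 : (T 2 ^ 2 : F[T;T⁻¹]) = T 4 := by rw [T_pow]; norm_num
  have h3 : (T (-2) ^ 2 : F[T;T⁻¹]) = T (-4) := by rw [T_pow]; norm_num
  calc (-T 2 - T (-2) : F[T;T⁻¹]) ^ 2 = T 2 ^ 2 + T (-2) ^ 2 + 2 * (T 2 * T (-2)) := by ring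
    _ = _ := by rw [h, h2, h3]; ring

/-- The extreme exponents of `∑ r_j(x^q) (x + 1/x)^j`. -/
theorem rem_span {q : ℕ} (hq : 1 ≤ q) (r : ℕ → F[T;T⁻¹]) (j0 : ℕ) (hj0 : j0 < q) (h0 : r j0 ≠ 0) :
    ∃ t b : ℤ, Top (r j0) t ∧ Bot (r j0) b ∧ b ≤ t ∧
      (∃ c, 4 * (q * t + j0) ≤ c ∧ (∑ j ∈ range q, (sub4 F (r j)) ^ q * yy F ^ j).coeff c ≠ 0) ∧
      (∃ c, c ≤ 4 * (q * b - j0) ∧ (∑ j ∈ range q, (sub4 F (r j)) ^ q * yy F ^ j).coeff c ≠ 0) := by
  classical
  have ht : ∀ j, ∃ t, r j ≠ 0 → Top (r j) t := by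
    intro j
    by_cases h : r j = 0
    · exact ⟨0, fun h' => absurd h h'⟩
    · obtain ⟨t, ht⟩ := exists_top (r j) h
      exact ⟨t, fun _ => ht⟩
  have hb : ∀ j, ∃ t, r j ≠ 0 → Bot (r j) t := by
    intro j
    by_cases h : r j = 0
    · exact ⟨0, fun h' => absurd h h'⟩
    · obtain ⟨t, ht⟩ := exists_bot (r j) h
      exact ⟨t, fun _ => ht⟩
  choose t ht using ht
  choose b hb using hb
  have hq0 : q ≠ 0 := by omega
  have hzero : ∀ j, r j = 0 → (sub4 F (r j)) ^ q * yy F ^ j = 0 := by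
    intro j h
    rw [h, map_zero, zero_pow hq0, zero_mul]
  have hne : ∀ j, (sub4 F (r j)) ^ q * yy F ^ j ≠ 0 → r j ≠ 0 := fun j h h' => h (hzero j h')
  have htop : ∀ j, r j ≠ 0 → Top ((sub4 F (r j)) ^ q * yy F ^ j) (q * (4 * t j) + j * 4) :=
    fun j hj => ((sub4_top (ht j hj)).pow q).mul (top_yy.pow j)
  have hbot : ∀ j, r j ≠ 0 → Bot ((sub4 F (r j)) ^ q * yy F ^ j) (q * (4 * b j) + j * (-4)) :=
    fun j hj => ((sub4_bot (hb j hj)).pow q).mul (bot_yy.pow j)
  have harith : ∀ i j : ℕ, i < q → j < q → ∀ a c : ℤ, (q : ℤ) * a + i = q * c + j → i = j := by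
    intro i j hi hj a c h
    have h1 : ((q : ℤ) * a + i) % q = (q * c + j) % q := by rw [h]
    rw [Int.mul_add_emod_self_left, Int.mul_add_emod_self_left, Int.emod_eq_of_lt (by omega) (by omega),
      Int.emod_eq_of_lt (by omega) (by omega)] at h1
    omega
  refine ⟨t j0, b j0, ht j0 h0, hb j0 h0, (hb j0 h0).le (ht j0 h0).1, ?_, ?_⟩
  · obtain ⟨c, h1, h2⟩ := sum_top (range q) (fun j => (sub4 F (r j)) ^ q * yy F ^ j)
      (fun j => q * (4 * t j) + j * 4) (by
        intro j _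
        by_cases h : r j = 0
        · left; exact hzero j h
        · right; exact htop j h) (by
        intro i hi j hj _ _ hij
        exact harith i j (Finset.mem_range.1 hi) (Finset.mem_range.1 hj) (t i) (t j) (by
          have : (q : ℤ) * (4 * t i) + i * 4 = q * (4 * t j) + j * 4 := hij
          linarith)) (Finset.mem_range.2 hj0) ((htop j0 h0).ne_zero)
    refine ⟨c, ?_, h2⟩
    have : (q : ℤ) * (4 * t j0) + j0 * 4 ≤ c := h1
    linarith
  · obtain ⟨c, h1, h2⟩ := sum_bot (range q) (fun j => (sub4 F (r j)) ^ q * yy F ^ j)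
      (fun j => q * (4 * b j) + j * (-4)) (by
        intro j _
        by_cases h : r j = 0
        · left; exact hzero j h
        · right; exact hbot j h) (by
        intro i hi j hj _ _ hij
        exact (harith j i (Finset.mem_range.1 hj) (Finset.mem_range.1 hi) (b i) (b j) (by
          have : (q : ℤ) * (4 * b i) + i * (-4) = q * (4 * b j) + j * (-4) := hij
          linarith)).symm) (Finset.mem_range.2 hj0) ((htop j0 h0).ne_zero)
    refine ⟨c, ?_, h2⟩
    have : c ≤ (q : ℤ) * (4 * b j0) + j0 * (-4) := h1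
    linarith

end bot

end Pool.Agent.TH561.PK
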