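import Pool.Agent.H891R2.Jones.Diagram

/-!
# Diagrams of links in the annulus, given by words in elementary tangles
-/

set_option autoImplicit false

namespace Pool.Agent.TH561.PK

open Pool.Agent.H891R2.Jones

/-- An elementary tangle on `M` vertical strands (at the places `0, …, M - 1`), which joins the places
`i` and `i + 1` (`i + 1 < M`; all other strands are vertical):
`(some true, i)`: a crossing at which the strand from lower left to upper right runs over;
`(some false, i)`: a crossing at which the strand from lower right to upper left runs over;
`(none, i)`: no crossing; the two lower points are joined by a cap and the two upper points are joined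
by a cup. -/
abbrev Elem (M : ℕ) : Type := Option Bool × Fin (M - 1)

variable {M L : ℕ}

/-- the left place of an elementary tangle -/
def Elem.lf (x : Elem M) : Fin M := ⟨x.2, by have := x.2.2; omega⟩

/-- the right place of an elementary tangle -/
def Elem.rg (x : Elem M) : Fin M := ⟨x.2 + 1, by have := x.2.2; omega⟩

/-- an oriented arc: from `p` to `q` if `b = true`, from `q` to `p` otherwise -/
def arrow {P : Type} (b : Bool) (p q : P) : P × P := if b then (p, q) else (q, p)

/-- the arcs of the elementary tangle `x` between the levels `t` and `t'` -/
def levelArcs (x : Elem M) (t t' : Fin L) (dir : Fin L × Fin M → Bool) :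
    List ((Fin L × Fin M) × (Fin L × Fin M)) :=
  ((List.finRange M).filter (fun j => j ≠ x.lf ∧ j ≠ x.rg)).map
      (fun j => arrow (dir (t, j)) (t, j) (t', j)) ++
    match x.1 with
    | some _ => []
    | none => [arrow (dir (t, x.lf)) (t, x.lf) (t, x.rg), arrow (dir (t', x.rg)) (t', x.lf) (t', x.rg)]

/-- the crossings of the elementary tangle `x` between the levels `t` and `t'` -/
def levelCrossings (x : Elem M) (t t' : Fin L) (dir : Fin L × Fin M → Bool) :
    List (Crossing (Fin L × Fin M)) :=
  match x.1 with
  | some true =>
    [⟨(t, x.rg), (t', x.rg), (t', x.lf), (t, x.lf), dir (t, x.rg), !(dir (t, x.lf))⟩]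
  | some false =>
    [⟨(t, x.lf), (t, x.rg), (t', x.rg), (t', x.lf), dir (t, x.lf), dir (t, x.rg)⟩]
  | none => []

/-- The oriented diagram in the annulus which is obtained from the elementary tangles `w 0`, `w 1`, …,
`w (L-1)`, drawn one above the other, by closing the `M` strands around the annulus.  Its marked points
are the points `(t, j)` (level `t ∈ ℤ/L`, place `j`); `w t` is drawn between the levels `t` and `t + 1`
(`finRotate L t` is `t + 1` modulo `L`).  `dir (t, j) = true` if the strand at the point `(t, j)` is
directed upwards. -/
def annular (w : Fin L → Elem M) (dir : Fin L × Fin M → Bool) : Diagram (Fin L × Fin M) where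
  arcs := (List.finRange L).flatMap (fun t => levelArcs (w t) t (finRotate L t) dir)
  crossings := (List.finRange L).flatMap (fun t => levelCrossings (w t) t (finRotate L t) dir)

/-- the directions `a` at the lower points and `b` at the upper points of `x` fit together -/
def Fits (x : Elem M) (a b : Fin M → Bool) : Prop :=
  (∀ j, j ≠ x.lf → j ≠ x.rg → a j = b j) ∧
    match x.1 with
    | some _ => a x.lf = b x.rg ∧ a x.rg = b x.lf
    | none => a x.lf ≠ a x.rg ∧ b x.lf ≠ b x.rg

/-- the directions `dir` are an orientation of the curves of the diagram -/
def Oriented (w : Fin L → Elem M) (dir : Fin L × Fin M → Bool) : Prop :=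
  ∀ t, Fits (w t) (fun j => dir (t, j)) (fun j => dir (finRotate L t, j))

/-- the number of the strands directed upwards minus the number of the strands directed downwards at
the level `t`: the linking number of the oriented curve with the axis of the annulus -/
def linking (dir : Fin L × Fin M → Bool) (t : Fin L) : ℤ := ∑ j, if dir (t, j) then 1 else -1

/-- two marked points are joined by a piece (arc, under-strand or over-strand) of a diagram -/
def Piece {P : Type} (D : Diagram P) (p q : P) : Prop :=
  (p, q) ∈ D.arcs ∨ ∃ x ∈ D.crossings, (p = x.a ∧ q = x.c) ∨ (p = x.b ∧ q = x.d)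

/-- the diagram has one component: all marked points are on the same curve -/
def IsKnot {P : Type} (D : Diagram P) : Prop := ∀ p q, Relation.EqvGen (Piece D) p q

theorem Elem.lf_ne_rg (x : Elem M) : x.lf ≠ x.rg := by
  intro h
  unfold Elem.lf Elem.rg at h
  simp at h

end Pool.Agent.TH561.PK
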