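import Pool.Agent.TH561.PB.Top
import Pool.Agent.TH561.PK.Defs

/-!
# The diagrams in the annulus are closed, and the linking number does not depend on the level
-/

set_option autoImplicit false

namespace Pool.Agent.TH561.PK

open Pool.Agent.H891R2.Jones Finset

section closed

variable {M L : ℕ}

/-- the indicator of `dir p = b` and `p = q` -/
def at' (dir : Fin L × Fin M → Bool) (b : Bool) (p q : Fin L × Fin M) : ℕ :=
  if dir p = b ∧ p = q then 1 else 0

theorem cnt_fst (dir : Fin L × Fin M → Bool) (b : Bool) (P Q p : Fin L × Fin M) {c d : Bool}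
    (h1 : (b = true) ↔ (dir P = c)) (h2 : (b = false) ↔ (dir Q = d)) :
    List.count p [(arrow b P Q).1] = at' dir c p P + at' dir d p Q := by
  unfold at'
  cases b
  · have h3 : dir P ≠ c := fun h => by simp [h] at h1
    have h4 : dir Q = d := h2.1 rfl
    have h5 : ¬ (dir p = c ∧ p = P) := fun h => h3 (h.2 ▸ h.1)
    rw [if_neg h5, zero_add]
    by_cases hp : p = Q
    · subst hp
      rw [if_pos ⟨h4, rfl⟩]
      simp [arrow]
    · rw [if_neg (fun h => hp h.2)]
      simp [arrow, Ne.symm hp]
  · have h3 : dir Q ≠ d := fun h => by simp [h] at h2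
    have h4 : dir P = c := h1.1 rfl
    have h5 : ¬ (dir p = d ∧ p = Q) := fun h => h3 (h.2 ▸ h.1)
    rw [if_neg h5, add_zero]
    by_cases hp : p = P
    · subst hp
      rw [if_pos ⟨h4, rfl⟩]
      simp [arrow]
    · rw [if_neg (fun h => hp h.2)]
      simp [arrow, Ne.symm hp]

theorem arrow_snd {P : Type} (b : Bool) (p q : P) : (arrow b p q).2 = (arrow (!b) p q).1 := by
  cases b <;> rfl

/-- the ends (`e = false`: starting points, `e = true`: end points) of the pieces of a level -/
def lends (e : Bool) (x : Elem M) (t t' : Fin L) (dir : Fin L × Fin M → Bool) :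
    List (Fin L × Fin M) :=
  (levelArcs x t t' dir).map (fun a => if e then a.2 else a.1) ++
    ((levelCrossings x t t' dir).map (fun x => if x.underFwd = !e then x.a else x.c) ++
      (levelCrossings x t t' dir).map (fun x => if x.overFwd = !e then x.b else x.d))

theorem arrow_end {P : Type} (e b : Bool) (p q : P) :
    (if e then (arrow b p q).2 else (arrow b p q).1) = (arrow (b == !e) p q).1 := by
  cases b <;> cases e <;> rfl

theorem cross_end {P : Type} (e b : Bool) (p q : P) :
    (if b = !e then p else q) = (arrow (b == !e) p q).1 := by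
  cases b <;> cases e <;> rfl

theorem cross_end' {P : Type} (e b : Bool) (p q : P) :
    (if b = !e then p else q) = (arrow ((!b) == !e) q p).1 := by
  cases b <;> cases e <;> rfl

theorem vert_count (e : Bool) (t t' : Fin L) (dir : Fin L × Fin M → Bool) (p : Fin L × Fin M)
    (l : List (Fin M)) (h : ∀ j ∈ l, dir (t, j) = dir (t', j)) :
    ((l.map (fun j => arrow (dir (t, j)) (t, j) (t', j))).map (fun a => if e then a.2 else a.1)).count p =
      (l.map (fun j => at' dir (!e) p (t, j) + at' dir e p (t', j))).sum := by
  induction l with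
  | nil => simp
  | cons j l ih =>
    have h1 := h j List.mem_cons_self
    rw [List.map_cons, List.map_cons, List.map_cons, List.sum_cons, List.count_cons,
      ih (fun k hk => h k (List.mem_cons_of_mem _ hk)), add_comm, arrow_end]
    congr 1
    have h2 := cnt_fst dir (dir (t, j) == !e) (t, j) (t', j) p (c := !e) (d := e)
      (by simp) (by rw [← h1]; cases dir (t, j) <;> cases e <;> simp)
    rw [← h2, List.count_cons, List.count_nil, zero_add]

theorem lends_count (e : Bool) (x : Elem M) (t t' : Fin L) (dir : Fin L × Fin M → Bool)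
    (h : Fits x (fun j => dir (t, j)) (fun j => dir (t', j))) (p : Fin L × Fin M) :
    (lends e x t t' dir).count p = ∑ j, (at' dir (!e) p (t, j) + at' dir e p (t', j)) := by
  obtain ⟨h0, h1⟩ := h
  have hlr := Elem.lf_ne_rg x
  have hsum : ∑ j, (at' dir (!e) p (t, j) + at' dir e p (t', j)) =
      (((List.finRange M).filter (fun j => j ≠ x.lf ∧ j ≠ x.rg)).map
        (fun j => at' dir (!e) p (t, j) + at' dir e p (t', j))).sum +
      ((at' dir (!e) p (t, x.lf) + at' dir e p (t', x.lf)) +
        (at' dir (!e) p (t, x.rg) + at' dir e p (t', x.rg))) := by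
    rw [← Finset.add_sum_erase univ _ (Finset.mem_univ x.lf),
      ← Finset.add_sum_erase (univ.erase x.lf) _ (Finset.mem_erase.2 ⟨hlr.symm, Finset.mem_univ x.rg⟩)]
    have h2 : ∑ j ∈ (univ.erase x.lf).erase x.rg, (at' dir (!e) p (t, j) + at' dir e p (t', j)) =
        (((List.finRange M).filter (fun j => j ≠ x.lf ∧ j ≠ x.rg)).map
        (fun j => at' dir (!e) p (t, j) + at' dir e p (t', j))).sum := by
      have h3 : (univ.erase x.lf).erase x.rg = univ.filter (fun j => j ≠ x.lf ∧ j ≠ x.rg) := by
        ext j
        simp only [Finset.mem_erase, Finset.mem_univ, and_true, Finset.mem_filter, true_and]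
        exact and_comm
      rw [h3, Finset.sum_filter, Fin.sum_univ_def]
      generalize List.finRange M = l
      induction l with
      | nil => simp
      | cons a l ih =>
        by_cases ha : a ≠ x.lf ∧ a ≠ x.rg
        · rw [List.filter_cons_of_pos (by simpa using ha), List.map_cons, List.sum_cons,
            List.map_cons, List.sum_cons, ih, if_pos ha]
        · rw [List.filter_cons_of_neg (by simpa using ha), List.map_cons, List.sum_cons, ih,
            if_neg ha, zero_add]
    rw [h2]
    ring
  rw [hsum]
  unfold lends levelArcs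
  rw [List.map_append, List.count_append, List.count_append, List.count_append,
    vert_count e t t' dir p _ (by
      intro j hj
      simp only [List.mem_filter, List.mem_finRange, true_and, decide_eq_true_eq, ne_eq] at hj
      exact h0 j hj.1 hj.2)]
  rw [add_assoc]
  congr 1
  unfold levelCrossings
  simp only at h1
  have hb : ∀ s r : Bool, s ≠ r → ∀ e : Bool, ((s == !e) = true ↔ s = !e) ∧ ((s == !e) = false ↔ r = !e) := by
    decide
  have hb' : ∀ s r : Bool, s ≠ r → ∀ e : Bool, ((r == !e) = true ↔ s = e) ∧ ((r == !e) = false ↔ r = e) := by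
    decide
  have hc : ∀ s r : Bool, s = r → ∀ e : Bool, ((s == !e) = true ↔ s = !e) ∧ ((s == !e) = false ↔ r = e) := by
    decide
  have hc' : ∀ s r : Bool, s = r → ∀ e : Bool, (((!(!s)) == !e) = true ↔ s = !e) ∧
      (((!(!s)) == !e) = false ↔ r = e) := by
    decide
  have hcc : ∀ a b : Fin L × Fin M, List.count p [a, b] = List.count p [a] + List.count p [b] := by
    intro a b
    rw [← List.count_append]
    rfl
  rcases hx : x.1 with _ | b
  · rw [hx] at h1
    simp only at h1
    obtain ⟨h2, h3⟩ := h1
    simp only [List.map_cons, List.map_nil, List.count_nil, add_zero]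
    rw [hcc, arrow_end, arrow_end,
      cnt_fst dir (dir (t, x.lf) == !e) (t, x.lf) (t, x.rg) p (c := !e) (d := !e)
        (hb _ _ h2 e).1 (hb _ _ h2 e).2,
      cnt_fst dir (dir (t', x.rg) == !e) (t', x.lf) (t', x.rg) p (c := e) (d := e)
        (hb' _ _ h3 e).1 (hb' _ _ h3 e).2]
    ring
  · rw [hx] at h1
    simp only at h1
    obtain ⟨h2, h3⟩ := h1
    cases b
    · simp only [List.map_cons, List.map_nil, List.count_nil, zero_add]
      rw [cross_end, cross_end,
        cnt_fst dir (dir (t, x.lf) == !e) (t, x.lf) (t', x.rg) p (c := !e) (d := e)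
          (hc _ _ h2 e).1 (hc _ _ h2 e).2,
        cnt_fst dir (dir (t, x.rg) == !e) (t, x.rg) (t', x.lf) p (c := !e) (d := e)
          (hc _ _ h3 e).1 (hc _ _ h3 e).2]
      ring
    · simp only [List.map_cons, List.map_nil, List.count_nil, zero_add]
      rw [cross_end, cross_end',
        cnt_fst dir (dir (t, x.rg) == !e) (t, x.rg) (t', x.lf) p (c := !e) (d := e)
          (hc _ _ h3 e).1 (hc _ _ h3 e).2,
        cnt_fst dir ((!(!(dir (t, x.lf)))) == !e) (t, x.lf) (t', x.rg) p (c := !e) (d := e)
          (hc' _ _ h2 e).1 (hc' _ _ h2 e).2]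
      ring

theorem at_sum (dir : Fin L × Fin M → Bool) (b : Bool) (p : Fin L × Fin M) (σ : Equiv.Perm (Fin L)) :
    ∑ t, ∑ j, at' dir b p (σ t, j) = if dir p = b then 1 else 0 := by
  rw [Equiv.sum_comp σ (fun t => ∑ j, at' dir b p (t, j)), ← Fintype.sum_prod_type']
  unfold at'
  rw [Finset.sum_eq_single p]
  · by_cases h : dir p = b
    · rw [if_pos ⟨h, rfl⟩, if_pos h]
    · rw [if_neg (fun h' => h h'.1), if_neg h]
  · intro q _ hq
    rw [if_neg (fun h => hq h.2.symm)]
  · intro h; exact absurd (Finset.mem_univ _) h

theorem ends_count (e : Bool) (w : Fin L → Elem M) (dir : Fin L × Fin M → Bool)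
    (h : Oriented w dir) (p : Fin L × Fin M) :
    ((annular w dir).arcs.map (fun a => if e then a.2 else a.1)).count p +
      (((annular w dir).crossings.map (fun x => if x.underFwd = !e then x.a else x.c)).count p +
      ((annular w dir).crossings.map (fun x => if x.overFwd = !e then x.b else x.d)).count p) = 1 := by
  have h1 : ((annular w dir).arcs.map (fun a => if e then a.2 else a.1)).count p +
      (((annular w dir).crossings.map (fun x => if x.underFwd = !e then x.a else x.c)).count p +
      ((annular w dir).crossings.map (fun x => if x.overFwd = !e then x.b else x.d)).count p) =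
      ∑ t, (lends e (w t) t (finRotate L t) dir).count p := by
    unfold annular lends
    simp only [List.map_flatMap, List.count_flatMap]
    rw [← Fin.sum_univ_def, ← Fin.sum_univ_def, ← Fin.sum_univ_def, ← Finset.sum_add_distrib,
      ← Finset.sum_add_distrib]
    refine Finset.sum_congr rfl fun t _ => ?_
    simp only [Function.comp_apply, List.count_append]
  rw [h1, Finset.sum_congr rfl (fun t _ => lends_count e (w t) t (finRotate L t) dir (h t) p)]
  simp only [Finset.sum_add_distrib]
  have h2 := at_sum dir (!e) p 1
  simp only [Equiv.Perm.coe_one, id_eq] at h2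
  rw [h2, at_sum dir e p (finRotate L)]
  cases dir p <;> cases e <;> simp

theorem count_inst (p : Fin L × Fin M) (l : List (Fin L × Fin M)) :
    @List.count _ instBEqOfDecidableEq p l = @List.count _ instBEqProd p l := by
  have h : (instBEqOfDecidableEq : BEq (Fin L × Fin M)) = instBEqProd :=
    lawful_beq_subsingleton _ _
  rw [h]

/-- the diagram is a closed oriented diagram -/
theorem annular_closed (w : Fin L → Elem M) (dir : Fin L × Fin M → Bool) (h : Oriented w dir) :
    (annular w dir).IsClosed := by
  intro p
  constructor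
  · have h1 := ends_count false w dir h p
    unfold Diagram.starts
    rw [count_inst, List.count_append, List.count_append, add_assoc]
    simpa using h1
  · have h1 := ends_count true w dir h p
    unfold Diagram.ends
    rw [count_inst, List.count_append, List.count_append, add_assoc]
    have e1 : ∀ (b : Bool) (x y : Fin L × Fin M), (if b = !true then x else y) = if b = true then y else x := by
      intro b x y
      cases b <;> rfl
    simp only [e1] at h1
    simpa using h1

/-- the flux -/
def sg' (b : Bool) : ℤ := if b then 1 else -1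

theorem fits_sum (x : Elem M) (a b : Fin M → Bool) (h : Fits x a b) :
    ∑ j, (if a j then (1 : ℤ) else -1) = ∑ j, if b j then (1 : ℤ) else -1 := by
  have hlr := Elem.lf_ne_rg x
  have hs : ∀ c : Fin M → Bool, ∑ j, (if c j then (1 : ℤ) else -1) =
      (if c x.lf then (1 : ℤ) else -1) + ((if c x.rg then (1 : ℤ) else -1) +
        ∑ j ∈ (univ.erase x.lf).erase x.rg, if c j then (1 : ℤ) else -1) := by
    intro c
    rw [← Finset.add_sum_erase univ _ (Finset.mem_univ x.lf),
      ← Finset.add_sum_erase (univ.erase x.lf) _ (Finset.mem_erase.2 ⟨hlr.symm, Finset.mem_univ x.rg⟩)]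
  rw [hs a, hs b]
  have h1 : ∑ j ∈ (univ.erase x.lf).erase x.rg, (if a j then (1 : ℤ) else -1) =
      ∑ j ∈ (univ.erase x.lf).erase x.rg, if b j then (1 : ℤ) else -1 := by
    refine Finset.sum_congr rfl fun j hj => ?_
    rw [Finset.mem_erase, Finset.mem_erase] at hj
    rw [h.1 j hj.2.1 hj.1]
  rw [h1]
  have h2 := h.2
  rcases hx : x.1 with _ | c
  · rw [hx] at h2
    simp only at h2
    have h3 : ∀ c d : Bool, c ≠ d → (if c then (1 : ℤ) else -1) + (if d then (1 : ℤ) else -1) = 0 := by
      decide
    have h4 := h3 _ _ h2.1
    have h5 := h3 _ _ h2.2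
    linarith
  · rw [hx] at h2
    simp only at h2
    rw [h2.1, h2.2]
    ring

theorem linking_rotate (w : Fin L → Elem M) (dir : Fin L × Fin M → Bool) (h : Oriented w dir)
    (t : Fin L) : linking dir (finRotate L t) = linking dir t :=
  (fits_sum (w t) _ _ (h t)).symm

/-- the linking number does not depend on the level -/
theorem linking_const (w : Fin L → Elem M) (dir : Fin L × Fin M → Bool) (h : Oriented w dir)
    (t t' : Fin L) : linking dir t = linking dir t' := by
  rcases L with _ | n
  · exact t.elim0
  have key : ∀ s : Fin (n+1), linking dir s = linking dir ⟨0, Nat.succ_pos n⟩ := by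
    intro s
    obtain ⟨i, hi⟩ := TH561.finRotate_reach n s
    rw [← hi]
    clear hi
    induction i with
    | zero => rfl
    | succ i ih => rw [pow_succ', Equiv.Perm.mul_apply, linking_rotate w dir h, ih]
  rw [key t, key t']

theorem linking_parity (dir : Fin L × Fin M → Bool) (t : Fin L) : linking dir t % 2 = (M : ℤ) % 2 := by
  unfold linking
  have h1 : ∀ j : Fin M, (if dir (t, j) then (1 : ℤ) else -1) = 1 - 2 * (if dir (t, j) then 0 else 1) := by
    intro j
    cases dir (t, j) <;> simp
  rw [Finset.sum_congr rfl (fun j _ => h1 j), Finset.sum_sub_distrib, ← Finset.mul_sum,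
    Finset.sum_const, Finset.card_univ, Fintype.card_fin]
  simp only [nsmul_eq_mul, mul_one]
  omega

end closed

end Pool.Agent.TH561.PK
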