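import Pool.Agent.TH561.PK.Alg

/-!
# Division with remainder and specialisation
-/

set_option autoImplicit false

namespace Pool.Agent.TH561.PK

open LaurentPolynomial Finset

section div

variable (p : ℕ) [hp : Fact p.Prime] (k : ℕ)

/-- `T ↦ T ^ (4 p^k)` -/
noncomputable def psi : (ZMod p)[T;T⁻¹] →+* (ZMod p)[T;T⁻¹] :=
  (iterateFrobenius (ZMod p)[T;T⁻¹] p k).comp (sub4 (ZMod p))

theorem psi_apply (f : (ZMod p)[T;T⁻¹]) : psi p k f = (sub4 (ZMod p) f) ^ (p ^ k) := by
  unfold psi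
  rw [RingHom.comp_apply, iterateFrobenius_def]

/-- the substitution of `T ^ (4 p^k)` for the coefficients and of `x + 1/x` for the variable -/
noncomputable def Phi : Polynomial (ZMod p)[T;T⁻¹] →+* (ZMod p)[T;T⁻¹] :=
  Polynomial.eval₂RingHom (psi p k) (yy (ZMod p))

/-- the relation -/
noncomputable def Mo : Polynomial (ZMod p)[T;T⁻¹] :=
  Polynomial.X ^ (p ^ k) - Polynomial.C (T 1 + T (-1))

theorem q_ne : p ^ k ≠ 0 := pow_ne_zero k hp.out.ne_zero

theorem Phi_Mo : Phi p k (Mo p k) = 0 := by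
  unfold Phi Mo
  rw [map_sub, map_pow, Polynomial.coe_eval₂RingHom, Polynomial.eval₂_X, Polynomial.eval₂_C,
    psi_apply, map_add, sub4_T, sub4_T]
  have h1 : (4 * (1 : ℤ)) = 4 := by norm_num
  have h2 : (4 * (-1 : ℤ)) = -4 := by norm_num
  rw [h1, h2]
  unfold yy
  exact sub_self _

theorem Phi_mod (R : Polynomial (ZMod p)[T;T⁻¹]) : Phi p k R = Phi p k (R %ₘ Mo p k) := by
  conv_lhs => rw [← Polynomial.modByMonic_add_div R (Mo p k)]
  rw [map_add, map_mul, Phi_Mo, zero_mul, add_zero]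

theorem Mo_monic : (Mo p k).Monic := Polynomial.monic_X_pow_sub_C _ (q_ne p k)

theorem mod_natDegree (R : Polynomial (ZMod p)[T;T⁻¹]) : (R %ₘ Mo p k).natDegree < p ^ k := by
  have h1 : (Mo p k).natDegree = p ^ k := Polynomial.natDegree_X_pow_sub_C
  have h2 := Polynomial.natDegree_modByMonic_lt R (Mo_monic p k) (by
    intro h
    rw [h, Polynomial.natDegree_one] at h1
    exact q_ne p k h1.symm)
  rw [h1] at h2
  exact h2

theorem Phi_sum (R : Polynomial (ZMod p)[T;T⁻¹]) : Phi p k R =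
    ∑ j ∈ range (p ^ k), (sub4 (ZMod p) ((R %ₘ Mo p k).coeff j)) ^ (p ^ k) * yy (ZMod p) ^ j := by
  rw [Phi_mod]
  unfold Phi
  rw [Polynomial.coe_eval₂RingHom,
    Polynomial.eval₂_eq_sum_range' (psi p k) (mod_natDegree p k R)]
  refine Finset.sum_congr rfl fun j _ => ?_
  rw [psi_apply]

/-- the evaluation at `T = 1` -/
noncomputable def eps : (ZMod p)[T;T⁻¹] →+* ZMod p :=
  LaurentPolynomial.eval₂ (RingHom.id (ZMod p)) 1

theorem eps_T (n : ℤ) : eps p (T n) = 1 := by
  unfold eps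
  rw [LaurentPolynomial.eval₂_T]
  simp

theorem eps_C (c : ZMod p) : eps p (C c) = c := by
  unfold eps
  rw [LaurentPolynomial.eval₂_C]
  rfl

theorem coeff_CT {F : Type*} [Field F] (c : F) (a n : ℤ) :
    (C c * T a : F[T;T⁻¹]).coeff n = if a = n then c else 0 := by
  rw [← single_eq_C_mul_T]
  show (Finsupp.single a c) n = _
  rw [Finsupp.single_apply]

theorem eq_of_top_bot {F : Type*} [Field F] {f : F[T;T⁻¹]} {t : ℤ} (h1 : Top f t) (h2 : Bot f t) :
    ∃ c : F, c ≠ 0 ∧ f = C c * T t := by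
  refine ⟨f.coeff t, h1.1, ?_⟩
  apply LaurentPolynomial.ext
  intro n
  rw [coeff_CT]
  split_ifs with h
  · rw [h]
  · by_contra hcon
    have h4 := Top.le h1 hcon
    have h5 := h2.le hcon
    omega

/-- If `T^b dF^δ Φ(R)` is a monomial times `dF`, then `δ = 1`, and the remainder of `R` is a
monomial. -/
theorem alg_main (hk : 1 ≤ k) (b : ℤ) (δ : ℕ) (hδ : δ < 2) (R : Polynomial (ZMod p)[T;T⁻¹]) (a : ℤ)
    (c : ZMod p) (hc : c ≠ 0) (h : T b * dF (ZMod p) ^ δ * Phi p k R = C c * T a * dF (ZMod p)) :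
    δ = 1 ∧ ∃ c0 : ZMod p, c0 ≠ 0 ∧ ∃ H : Polynomial (ZMod p),
      R.map (eps p) = Polynomial.C c0 + (Polynomial.X ^ (p ^ k) - Polynomial.C 2) * H := by
  have hq1 : 1 ≤ p ^ k := Nat.one_le_iff_ne_zero.2 (q_ne p k)
  have hq2 : 2 ≤ p ^ k := by
    calc 2 ≤ p := hp.out.two_le
      _ = p ^ 1 := (pow_one p).symm
      _ ≤ p ^ k := Nat.pow_le_pow_right hp.out.pos hk
  have hdF0 : dF (ZMod p) ≠ 0 := top_dF.ne_zero
  -- the nonzero coefficients of `Φ(R)` have exponents in an interval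
  have hTb : (T (-b) * T b : (ZMod p)[T;T⁻¹]) = 1 := by rw [← T_add]; simp
  have key : (δ = 1 ∧ Phi p k R = C c * T (a - b)) ∨
      (δ = 0 ∧ Phi p k R = -(C c * T (a - b + 2)) - C c * T (a - b - 2)) := by
    have h1 : dF (ZMod p) ^ δ * Phi p k R = C c * T (a - b) * dF (ZMod p) := by
      calc dF (ZMod p) ^ δ * Phi p k R = (T (-b) * T b) * (dF (ZMod p) ^ δ * Phi p k R) := by
            rw [hTb, one_mul]
        _ = T (-b) * (T b * dF (ZMod p) ^ δ * Phi p k R) := by ring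
        _ = C c * (T (-b) * T a) * dF (ZMod p) := by rw [h]; ring
        _ = _ := by rw [← T_add]; congr 3; ring
    have hδ' : δ = 0 ∨ δ = 1 := by omega
    rcases hδ' with hδ' | hδ'
    · right
      refine ⟨hδ', ?_⟩
      rw [hδ', pow_zero, one_mul] at h1
      rw [h1]
      unfold dF
      have e1 : (T (a - b + 2) : (ZMod p)[T;T⁻¹]) = T (a - b) * T 2 := by rw [← T_add]
      have e2 : (T (a - b - 2) : (ZMod p)[T;T⁻¹]) = T (a - b) * T (-2) := by rw [← T_add]; rfl
      rw [e1, e2]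
      ring
    · left
      refine ⟨hδ', ?_⟩
      rw [hδ', pow_one, mul_comm] at h1
      exact mul_right_cancel₀ hdF0 h1
  have hnz : Phi p k R ≠ 0 := by
    intro h0
    rw [h0, mul_zero] at h
    exact hdF0 ((mul_eq_zero.1 h.symm).resolve_left (by
      intro h1
      have h2 : (C c * T a : (ZMod p)[T;T⁻¹]).coeff a = 0 := by rw [h1]; rfl
      rw [coeff_CT, if_pos rfl] at h2
      exact hc h2))
  have hsupp : ∀ n, (Phi p k R).coeff n ≠ 0 → (δ = 1 ∧ n = a - b) ∨ (δ = 0 ∧ (n = a - b + 2 ∨ n = a - b - 2)) := by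
    intro n hn
    rcases key with ⟨h1, h2⟩ | ⟨h1, h2⟩
    · left
      refine ⟨h1, ?_⟩
      rw [h2, coeff_CT] at hn
      by_contra hne
      exact hn (if_neg (fun h => hne h.symm))
    · right
      refine ⟨h1, ?_⟩
      rw [h2] at hn
      have h3 : (-(C c * T (a - b + 2)) - C c * T (a - b - 2) : (ZMod p)[T;T⁻¹]).coeff n =
          -(C c * T (a - b + 2) : (ZMod p)[T;T⁻¹]).coeff n - (C c * T (a - b - 2) : (ZMod p)[T;T⁻¹]).coeff n := by
        simp
      rw [h3, coeff_CT, coeff_CT] at hn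
      by_contra hne
      push Not at hne
      apply hn
      rw [if_neg (fun h => hne.1 h.symm), if_neg (fun h => hne.2 h.symm)]
      simp
  -- all coefficients of the remainder but the constant one vanish
  have hcoef : ∀ j0, j0 < p ^ k → (R %ₘ Mo p k).coeff j0 ≠ 0 →
      ∃ t : ℤ, Top ((R %ₘ Mo p k).coeff j0) t ∧ Bot ((R %ₘ Mo p k).coeff j0) t ∧ j0 = 0 := by
    intro j0 hj0 h0
    obtain ⟨t, b', ht, hb, hle, ⟨c1, h1, h2⟩, ⟨c2, h3, h4⟩⟩ :=
      rem_span hq1 (fun j => (R %ₘ Mo p k).coeff j) j0 hj0 h0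
    rw [← Phi_sum] at h2 h4
    have h5 := hsupp c1 h2
    have h6 := hsupp c2 h4
    have h7 : c1 - c2 ≤ 4 := by omega
    have h8 : 4 * ((p ^ k : ℕ) * (t - b') + 2 * j0 : ℤ) ≤ 4 := by linarith
    have h9 : (2 : ℤ) * (t - b') ≤ (p ^ k : ℕ) * (t - b') := by
      apply mul_le_mul_of_nonneg_right _ (by linarith)
      exact_mod_cast hq2
    have h10 : t = b' := by omega
    subst h10
    exact ⟨t, ht, hb, by omega⟩
  have h00 : (R %ₘ Mo p k).coeff 0 ≠ 0 := by
    intro h0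
    apply hnz
    rw [Phi_sum]
    apply Finset.sum_eq_zero
    intro j hj
    have : (R %ₘ Mo p k).coeff j = 0 := by
      by_contra hcon
      obtain ⟨t, _, _, hj0⟩ := hcoef j (Finset.mem_range.1 hj) hcon
      rw [hj0] at hcon
      exact hcon h0
    rw [this, map_zero, zero_pow (q_ne p k), zero_mul]
  obtain ⟨t, ht, hb, _⟩ := hcoef 0 (by omega) h00
  obtain ⟨c0, hc0, hc0'⟩ := eq_of_top_bot ht hb
  have hrem : R %ₘ Mo p k = Polynomial.C ((R %ₘ Mo p k).coeff 0) := by
    apply Polynomial.ext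
    intro j
    rw [Polynomial.coeff_C]
    split_ifs with hj
    · rw [hj]
    · by_contra hcon
      have hjq : j < p ^ k := by
        by_contra hge
        exact hcon (Polynomial.coeff_eq_zero_of_natDegree_lt
          (lt_of_lt_of_le (mod_natDegree p k R) (not_lt.1 hge)))
      obtain ⟨_, _, _, hj0⟩ := hcoef j hjq hcon
      exact hj hj0
  constructor
  · -- `δ = 0` is impossible
    rcases key with ⟨h1, _⟩ | ⟨h1, h2⟩
    · exact h1
    · exfalso
      have h3 : Phi p k R = (sub4 (ZMod p) ((R %ₘ Mo p k).coeff 0)) ^ (p ^ k) := by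
        rw [Phi_mod, hrem, Phi, Polynomial.coe_eval₂RingHom, Polynomial.eval₂_C, psi_apply,
          Polynomial.coeff_C_zero]
      rw [h3, hc0', map_mul, sub4_T, mul_pow, T_pow] at h2
      have hC : sub4 (ZMod p) (C c0) = C c0 := by
        rw [sub4_apply]
        unfold C
        show AddMonoidAlgebra.mapDomain _ (AddMonoidAlgebra.single 0 c0) = AddMonoidAlgebra.single 0 c0
        rw [AddMonoidAlgebra.mapDomain_single, map_zero]
      rw [hC, ← map_pow] at h2
      have h4 : (C (c0 ^ p ^ k) * T ((p ^ k : ℕ) * (4 * t)) : (ZMod p)[T;T⁻¹]).coeff (a - b + 2) =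
          (-(C c * T (a - b + 2)) - C c * T (a - b - 2) : (ZMod p)[T;T⁻¹]).coeff (a - b + 2) := by
        rw [h2]
      have h5 : (C (c0 ^ p ^ k) * T ((p ^ k : ℕ) * (4 * t)) : (ZMod p)[T;T⁻¹]).coeff (a - b - 2) =
          (-(C c * T (a - b + 2)) - C c * T (a - b - 2) : (ZMod p)[T;T⁻¹]).coeff (a - b - 2) := by
        rw [h2]
      have h6 : ∀ n, (-(C c * T (a - b + 2)) - C c * T (a - b - 2) : (ZMod p)[T;T⁻¹]).coeff n =
          -(C c * T (a - b + 2) : (ZMod p)[T;T⁻¹]).coeff n - (C c * T (a - b - 2) : (ZMod p)[T;T⁻¹]).coeff n := by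
        intro n; simp
      have n1 : ¬ (a - b - 2 = a - b + 2) := by omega
      have n2 : ¬ (a - b + 2 = a - b - 2) := by omega
      rw [h6, coeff_CT, coeff_CT, coeff_CT, if_pos rfl, if_neg n1] at h4
      rw [h6, coeff_CT, coeff_CT, coeff_CT, if_neg n2, if_pos rfl] at h5
      by_cases h9 : ((p ^ k : ℕ) : ℤ) * (4 * t) = a - b + 2
      · by_cases h10 : ((p ^ k : ℕ) : ℤ) * (4 * t) = a - b - 2
        · omega
        · rw [if_neg h10, neg_zero, zero_sub] at h5
          exact hc (neg_eq_zero.1 h5.symm)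
      · rw [if_neg h9, sub_zero] at h4
        exact hc (neg_eq_zero.1 h4.symm)
  · refine ⟨c0, hc0, (R /ₘ Mo p k).map (eps p), ?_⟩
    conv_lhs => rw [← Polynomial.modByMonic_add_div R (Mo p k)]
    rw [Polynomial.map_add, Polynomial.map_mul, hrem, hc0', Polynomial.map_C, map_mul, eps_C, eps_T,
      mul_one]
    congr 2
    unfold Mo
    rw [Polynomial.map_sub, Polynomial.map_pow, Polynomial.map_X, Polynomial.map_C, map_add, eps_T,
      eps_T]
    norm_num

end div

end Pool.Agent.TH561.PK
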