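import Pool.Agent.TH561.PB.Words

/-!
# Words in the Temperley–Lieb generators: traces with a separate value for the essential curves
-/

set_option autoImplicit false

namespace Pool.Agent.TH561.PK

open Pool.Agent.H891R2.Jones Pool.Agent.TH561

section words

variable {K : Type*} [Field K] {ι : Type*} {R : ι → Type*} [∀ j, Ring (R j)]
  [∀ j, Algebra K (R j)] {M : ℕ} {d : ι → K} {e : ∀ j, ℕ → R j}

theorem WP_memG (G : ∀ j, Subalgebra K (R j)) (hG : ∀ j i, i + 1 < M → e j i ∈ G j) (j : ι)
    (L : List ℕ) (hL : ∀ i ∈ L, i + 1 < M) : WP (e j) L ∈ G j := by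
  induction L with
  | nil => exact (G j).one_mem
  | cons i L ih =>
    rw [WP_cons]
    exact (G j).mul_mem (hG j i (hL i List.mem_cons_self))
      (ih (fun k hk => hL k (List.mem_cons_of_mem _ hk)))

/-- the number of essential and inessential curves of the closure of a word in the annulus; the
essential curves have the value `z`, the other ones the value `d` -/
theorem annular' (h : ∀ j, IsTL M (d j) (e j)) (hd : ∀ j, d j ≠ 0) (z : ι → K) (hz : ∀ j, z j ≠ 0)
    (τ : ∀ j, R j →ₗ[K] K) (G : ∀ j, Subalgebra K (R j)) (hG : ∀ j i, i + 1 < M → e j i ∈ G j)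
    (hcyc : ∀ j x y, x ∈ G j → y ∈ G j → τ j (x * y) = τ j (y * x))
    (hmk : ∀ j r L, r + 1 < M → (∀ i ∈ L, i + 1 < r) →
      z j ^ 2 * τ j (WP (e j) L * e j r) = d j * τ j (WP (e j) L))
    (h1 : ∀ j, τ j 1 = (z j) ^ M) :
    ∀ r, r ≤ M → ∀ L : List ℕ, (∀ i ∈ L, i + 1 < r) → ∃ s c : ℕ, s ≤ r ∧ s % 2 = r % 2 ∧
      L.length % 2 = c % 2 ∧
      ∀ j, ∀ q, 1 ≤ q → τ j ((WP (e j) L) ^ q) = z j ^ (M - r + s) * (d j) ^ (q * c) := by
  intro r
  induction r using Nat.strong_induction_on with
  | _ r ih =>
    intro hr L hL
    rcases Nat.eq_zero_or_pos r with hr0 | hr0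
    · subst hr0
      have hL0 : L = [] := by
        rcases L with _ | ⟨i, L⟩
        · rfl
        · exact absurd (hL i List.mem_cons_self) (by omega)
      subst hL0
      refine ⟨0, 0, le_rfl, rfl, rfl, fun j q _ => ?_⟩
      simp [h1]
    · by_cases hL' : ∀ i ∈ L, i + 1 < r - 1
      · obtain ⟨s, c, h2, h3, h5, h6⟩ := ih (r-1) (by omega) (by omega) L hL'
        refine ⟨s + 1, c, by omega, by omega, h5, fun j q hq => ?_⟩
        rw [h6 j q hq]
        congr 2
        omega
      · push Not at hL'
        obtain ⟨i0, hi0, hi0'⟩ := hL'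
        have hr2 : 2 ≤ r := by have := hL i0 hi0; omega
        obtain ⟨t, rfl⟩ : ∃ t, r = t + 2 := ⟨r - 2, by omega⟩
        have ht : t + 1 < M := by omega
        rcases propC h t ht L (fun i hi => by have := hL i hi; omega) with hX | ⟨b, L1, L2, hL1, hL2, hlen, hE⟩
        · exact absurd (hX i0 hi0) (by omega)
        · obtain ⟨a, X', hX', hpar, hE'⟩ := propD h t ht (L2 ++ L1) (by
            intro i hi
            rcases List.mem_append.1 hi with hi | hi
            · exact hL2 i hi
            · exact hL1 i hi)
          obtain ⟨s, c, h2, h3, h5, h6⟩ := ih t (by omega) (by omega) X'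
            (fun i hi => by have := hX' i hi; omega)
          rw [List.length_append] at hpar
          refine ⟨s, c + a + b, by omega, by omega, by omega, fun j q hq => ?_⟩
          -- the computation
          have hGt : e j t ∈ G j := hG j t ht
          have hG1 : WP (e j) L1 ∈ G j := WP_memG G hG j L1 (fun i hi => by have := hL1 i hi; omega)
          have hG2 : WP (e j) L2 ∈ G j := WP_memG G hG j L2 (fun i hi => by have := hL2 i hi; omega)
          have hG21 : WP (e j) (L2 ++ L1) ∈ G j := by
            rw [WP_append]
            exact (G j).mul_mem hG2 hG1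
          have hcX : Commute (e j t) (WP (e j) X') := comm_WP h t ht X' hX' j
          have hstep : ∀ n : ℕ, e j t * (WP (e j) (L2 ++ L1) * e j t) ^ n =
              (d j) ^ (a * n) • ((WP (e j) X') ^ n * e j t) := by
            intro n
            induction n with
            | zero => simp
            | succ n ihn =>
              rw [pow_succ, ← mul_assoc, ihn, smul_mul_assoc]
              have : (WP (e j) X') ^ n * e j t * (WP (e j) (L2 ++ L1) * e j t) =
                  (WP (e j) X') ^ n * (e j t * WP (e j) (L2 ++ L1) * e j t) := by noncomm_ring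
              rw [this, hE' j, mul_smul_comm, smul_smul, ← pow_add, pow_succ, mul_assoc]
              congr 2
          have hcyc2 : τ j ((WP (e j) L1 * e j t * WP (e j) L2) ^ q) =
              τ j ((WP (e j) (L2 ++ L1) * e j t) ^ q) := by
            obtain ⟨q', rfl⟩ : ∃ q', q = q' + 1 := ⟨q - 1, by omega⟩
            have hx : ∀ n : ℕ, (WP (e j) L1 * e j t * WP (e j) L2) ^ (n+1) =
                (WP (e j) L1 * e j t) * (WP (e j) (L2 ++ L1) * e j t) ^ n * WP (e j) L2 := by
              intro n
              induction n with
              | zero => simp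
              | succ n ihn =>
                rw [pow_succ, ihn, pow_succ (WP (e j) (L2 ++ L1) * e j t) n, WP_append]
                noncomm_ring
            rw [hx, hcyc j _ _ ((G j).mul_mem ((G j).mul_mem hG1 hGt)
              ((G j).pow_mem ((G j).mul_mem hG21 hGt) q')) hG2, ← mul_assoc, ← mul_assoc,
              ← WP_append, ← pow_succ']
          have hmain : d j * τ j ((WP (e j) (L2 ++ L1) * e j t) ^ q) =
              (d j) ^ (a * q) * τ j ((WP (e j) X') ^ q * e j t) := by
            obtain ⟨q', rfl⟩ : ∃ q', q = q' + 1 := ⟨q - 1, by omega⟩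
            have hsq : d j • (WP (e j) (L2 ++ L1) * e j t) ^ (q'+1) =
                (WP (e j) (L2 ++ L1) * e j t) ^ (q'+1) * e j t := by
              rw [pow_succ, mul_assoc, mul_assoc, (h j).sq t ht, mul_smul_comm, mul_smul_comm]
            rw [← smul_eq_mul, ← map_smul, hsq,
              hcyc j _ _ ((G j).pow_mem ((G j).mul_mem hG21 hGt) _) hGt, hstep, map_smul, smul_eq_mul]
          have hpow : ∀ n : ℕ, (WP (e j) X') ^ n = WP (e j) (List.replicate n X').flatten := by
            intro n
            rw [WP_flatten, List.map_replicate, List.prod_replicate]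
          have hm := hmk j t (List.replicate q X').flatten ht (by
            intro i hi
            rw [List.mem_flatten] at hi
            obtain ⟨l, hl, hi⟩ := hi
            rw [List.mem_replicate] at hl
            rw [hl.2] at hi
            exact hX' i hi)
          rw [← hpow, h6 j q hq] at hm
          -- combine
          rw [hE j, smul_pow, map_smul, smul_eq_mul, hcyc2]
          have hdj := hd j
          have hzj := hz j
          apply mul_left_cancel₀ hdj
          apply mul_left_cancel₀ (pow_ne_zero 2 hzj)
          calc (z j) ^ 2 * (d j * (((d j) ^ b) ^ q * τ j ((WP (e j) (L2 ++ L1) * e j t) ^ q)))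
              = ((d j) ^ b) ^ q * (z j ^ 2 * (d j * τ j ((WP (e j) (L2 ++ L1) * e j t) ^ q))) := by ring
            _ = ((d j) ^ b) ^ q * (d j) ^ (a * q) * (z j ^ 2 * τ j ((WP (e j) X') ^ q * e j t)) := by
                rw [hmain]; ring
            _ = (z j) ^ 2 * (d j * (z j ^ (M - (t + 2) + s) * (d j) ^ (q * (c + a + b)))) := by
                rw [hm, ← pow_mul]
                have : M - t + s = (M - (t + 2) + s) + 2 := by omega
                rw [this, pow_add (z j)]
                have h7 : (d j) ^ (q * (c + a + b)) = (d j) ^ (q * c) * (d j) ^ (a * q) * (d j) ^ (b * q) := by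
                  rw [← pow_add, ← pow_add]
                  congr 1
                  ring
                rw [h7]
                ring

end words

end Pool.Agent.TH561.PK
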