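import Pool.Agent.TH561.PB.Mat2
import Pool.Agent.TH561.PK.Words

/-!
# The twisted trace of the Temperley–Lieb representation on two colours
-/

set_option autoImplicit false

namespace Pool.Agent.TH561.PK

open Pool.Agent.H891R2.Jones Pool.Agent.TH561 Finset

section mat

variable {m N : ℕ}

theorem KK_apply (i : ℕ) (h : i + 1 < m) (x y : Fin m → Fin N) :
    KK m N i x y = ind (x ⟨i, Nat.lt_of_succ_lt h⟩ = x ⟨i+1, h⟩ ∧
      y ⟨i, Nat.lt_of_succ_lt h⟩ = y ⟨i+1, h⟩ ∧
      ∀ j : Fin m, j ≠ ⟨i, Nat.lt_of_succ_lt h⟩ → j ≠ ⟨i+1, h⟩ → x j = y j) := by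
  have h0 := KK_mul_apply i h (1 : Matrix (Fin m → Fin N) (Fin m → Fin N) ℂ) x y
  rw [mul_one] at h0
  rw [h0]
  by_cases h1 : x ⟨i, Nat.lt_of_succ_lt h⟩ = x ⟨i+1, h⟩
  · rw [if_pos h1]
    by_cases h2 : y ⟨i, Nat.lt_of_succ_lt h⟩ = y ⟨i+1, h⟩ ∧
      ∀ j : Fin m, j ≠ ⟨i, Nat.lt_of_succ_lt h⟩ → j ≠ ⟨i+1, h⟩ → x j = y j
    · rw [ind_pos ⟨h1, h2⟩, Finset.sum_eq_single (y ⟨i, Nat.lt_of_succ_lt h⟩)]
      · rw [Matrix.one_apply, if_pos]
        funext j
        simp only [upd]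
        split_ifs with hj
        · rcases hj with rfl | rfl
          · rfl
          · exact h2.1
        · push Not at hj
          exact h2.2 j hj.1 hj.2
      · intro c _ hc
        rw [Matrix.one_apply, if_neg]
        intro h3
        apply hc
        rw [← h3, upd_left]
      · intro h3; exact absurd (Finset.mem_univ _) h3
    · rw [ind_neg (fun h3 => h2 h3.2)]
      apply Finset.sum_eq_zero
      intro c _
      rw [Matrix.one_apply, if_neg]
      intro h3
      apply h2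
      rw [← h3]
      refine ⟨by rw [upd_left, upd_right], fun j hj1 hj2 => by rw [upd_other _ _ hj1 hj2]⟩
  · rw [if_neg h1, ind_neg (fun h3 => h1 h3.1)]

/-- the direction of the strand at the place `j` for the colours `x` -/
def dirOf (x : Fin m → Fin 2) (j : Fin m) : Bool := (x j == 0) != ((j : ℕ) % 2 == 0)

/-- the twist -/
noncomputable def tw (u : ℂ) (x : Fin m → Fin 2) : ℂ := ∏ j, if dirOf x j then u else u⁻¹

theorem dirOf_adj (i : ℕ) (h : i + 1 < m) (x : Fin m → Fin 2) :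
    x ⟨i, Nat.lt_of_succ_lt h⟩ = x ⟨i+1, h⟩ ↔
      dirOf x ⟨i, Nat.lt_of_succ_lt h⟩ = !(dirOf x ⟨i+1, h⟩) := by
  unfold dirOf
  generalize x ⟨i, Nat.lt_of_succ_lt h⟩ = a
  generalize x ⟨i+1, h⟩ = b
  simp only
  have h2 : i % 2 = 0 ∨ i % 2 = 1 := by omega
  rcases h2 with h2 | h2
  · have h3 : (i+1) % 2 = 1 := by omega
    rw [h2, h3]
    revert a b
    decide
  · have h3 : (i+1) % 2 = 0 := by omega
    rw [h2, h3]
    revert a b
    decide

/-- the rest of the twist -/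
noncomputable def cw (u : ℂ) (p q : Fin m) (x : Fin m → Fin 2) : ℂ :=
  ∏ j ∈ (univ.erase p).erase q, if dirOf x j then u else u⁻¹

theorem tw_split (u : ℂ) {p q : Fin m} (hpq : p ≠ q) (x : Fin m → Fin 2) :
    tw u x = (if dirOf x p then u else u⁻¹) * (if dirOf x q then u else u⁻¹) * cw u p q x := by
  unfold tw cw
  rw [← Finset.mul_prod_erase univ _ (Finset.mem_univ p),
    ← Finset.mul_prod_erase (univ.erase p) _ (Finset.mem_erase.2 ⟨hpq.symm, Finset.mem_univ q⟩),
    mul_assoc]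

theorem cw_congr (u : ℂ) (p q : Fin m) (x y : Fin m → Fin 2)
    (h : ∀ j, j ≠ p → j ≠ q → x j = y j) : cw u p q x = cw u p q y := by
  unfold cw
  refine Finset.prod_congr rfl fun j hj => ?_
  rw [Finset.mem_erase, Finset.mem_erase] at hj
  unfold dirOf
  rw [h j hj.2.1 hj.1]

theorem tw_adj {u : ℂ} (hu : u ≠ 0) (i : ℕ) (h : i + 1 < m) (x : Fin m → Fin 2)
    (hx : x ⟨i, Nat.lt_of_succ_lt h⟩ = x ⟨i+1, h⟩) :
    tw u x = cw u ⟨i, Nat.lt_of_succ_lt h⟩ ⟨i+1, h⟩ x := by
  have hpq : (⟨i, Nat.lt_of_succ_lt h⟩ : Fin m) ≠ ⟨i+1, h⟩ := by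
    intro h; simp at h
  rw [tw_split u hpq, (dirOf_adj i h x).1 hx]
  cases dirOf x ⟨i+1, h⟩ <;> simp [hu]

theorem tw_comm {u : ℂ} (hu : u ≠ 0) (i : ℕ) (h : i + 1 < m) :
    Matrix.diagonal (tw (m := m) u) * KK m 2 i = KK m 2 i * Matrix.diagonal (tw u) := by
  ext x y
  rw [Matrix.diagonal_mul, Matrix.mul_diagonal, KK_apply i h]
  by_cases h1 : x ⟨i, Nat.lt_of_succ_lt h⟩ = x ⟨i+1, h⟩ ∧
      y ⟨i, Nat.lt_of_succ_lt h⟩ = y ⟨i+1, h⟩ ∧
      ∀ j : Fin m, j ≠ ⟨i, Nat.lt_of_succ_lt h⟩ → j ≠ ⟨i+1, h⟩ → x j = y j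
  · rw [ind_pos h1, tw_adj hu i h x h1.1, tw_adj hu i h y h1.2.1, cw_congr u _ _ x y h1.2.2]
    ring
  · rw [ind_neg h1]; ring

theorem sum_flip (s : Fin m) (F : (Fin m → Fin 2) → ℂ)
    (hF : ∀ (σ : Equiv.Perm (Fin 2)) x, F (permAt s σ x) = F x) (g : Fin 2 → ℂ) :
    2 * ∑ x, F x * g (x s) = (g 0 + g 1) * ∑ x, F x := by
  have h1 : ∑ x, F x * g (x s) = ∑ x, F x * g (Equiv.swap 0 1 (x s)) := by
    rw [← Equiv.sum_comp (permAt s (Equiv.swap 0 1))]
    refine Finset.sum_congr rfl fun x _ => ?_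
    rw [hF, permAt_self]
  have h2 : 2 * ∑ x, F x * g (x s) = ∑ x, F x * (g (x s) + g (Equiv.swap 0 1 (x s))) := by
    rw [two_mul]
    nth_rewrite 2 [h1]
    rw [← Finset.sum_add_distrib]
    refine Finset.sum_congr rfl fun x _ => ?_
    ring
  rw [h2, Finset.mul_sum]
  refine Finset.sum_congr rfl fun x _ => ?_
  have h3 : ∀ a : Fin 2, g a + g (Equiv.swap 0 1 a) = g 0 + g 1 := by
    intro a
    fin_cases a
    · simp
    · simp [add_comm]
  rw [h3]
  ring

theorem permAt_place (s : Fin m) (σ : Equiv.Perm (Fin N)) (x : Fin m → Fin N) {j : Fin m}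
    (h : j ≠ s) : permAt s σ x j = x j := permAt_other s σ x h

theorem WP_loc (s : Fin m) (L : List ℕ) (hL : ∀ i ∈ L, i + 1 < m ∧ i ≠ (s : ℕ) ∧ i + 1 ≠ (s : ℕ)) :
    WP (KK m N) L ∈ Loc N s := by
  induction L with
  | nil => exact (Loc N s).one_mem
  | cons i L ih =>
    rw [WP_cons]
    obtain ⟨h1, h2, h3⟩ := hL i List.mem_cons_self
    refine (Loc N s).mul_mem (KK_loc s i h1 (fun h => h2 ?_) (fun h => h3 ?_))
      (ih (fun k hk => hL k (List.mem_cons_of_mem _ hk)))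
    · rw [← h]
    · rw [← h]

theorem markov_tw {u : ℂ} (hu : u ≠ 0) (r : ℕ) (L : List ℕ) (hr : r + 1 < m)
    (hL : ∀ i ∈ L, i + 1 < r) :
    (u + u⁻¹) ^ 2 * Matrix.trace (Matrix.diagonal (tw (m := m) u) * (WP (KK m 2) L * KK m 2 r)) =
      (2 : ℕ) * Matrix.trace (Matrix.diagonal (tw (m := m) u) * WP (KK m 2) L) := by
  set p : Fin m := ⟨r, Nat.lt_of_succ_lt hr⟩ with hp
  set q : Fin m := ⟨r+1, hr⟩ with hq
  have hpq : p ≠ q := by
    intro h; rw [hp, hq] at h; simp at h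
  set Y := WP (KK m 2) L with hY
  have hYp : Y ∈ Loc 2 p := WP_loc p L (fun i hi => by
    have := hL i hi
    simp only [hp]
    omega)
  have hYq : Y ∈ Loc 2 q := WP_loc q L (fun i hi => by
    have := hL i hi
    simp only [hq]
    omega)
  -- the trace with `KK r`
  have h1 : Matrix.trace (Matrix.diagonal (tw (m := m) u) * (Y * KK m 2 r)) =
      ∑ x, (if x p = x q then cw u p q x * Y x x else 0) := by
    rw [← mul_assoc, Matrix.trace_mul_comm]
    unfold Matrix.trace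
    refine Finset.sum_congr rfl fun x _ => ?_
    rw [Matrix.diag_apply, KK_mul_apply r hr]
    by_cases hx : x p = x q
    · rw [if_pos hx, if_pos hx, Finset.sum_eq_single (x p)]
      · have hxx : upd x p q (x p) = x := by
          funext j
          simp only [upd]
          split_ifs with hj
          · rcases hj with rfl | rfl
            · rfl
            · exact hx
          · rfl
        have hxx' : upd x ⟨r, Nat.lt_of_succ_lt hr⟩ ⟨r+1, hr⟩ (x p) = x := hxx
        rw [hxx', Matrix.diagonal_mul, tw_adj hu r hr x hx]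
      · intro c _ hc
        rw [Matrix.diagonal_mul]
        have : Y (upd x ⟨r, Nat.lt_of_succ_lt hr⟩ ⟨r+1, hr⟩ c) x = 0 := by
          apply hYp.1
          rw [upd_left]
          exact hc
        rw [this, mul_zero]
      · intro h; exact absurd (Finset.mem_univ _) h
    · rw [if_neg hx, if_neg hx]
  have h2 : Matrix.trace (Matrix.diagonal (tw (m := m) u) * Y) =
      ∑ x, (if dirOf x p then u else u⁻¹) * (if dirOf x q then u else u⁻¹) *
        (cw u p q x * Y x x) := by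
    unfold Matrix.trace
    refine Finset.sum_congr rfl fun x _ => ?_
    rw [Matrix.diag_apply, Matrix.diagonal_mul, tw_split u hpq]
    ring
  have hFp : ∀ (σ : Equiv.Perm (Fin 2)) x, cw u p q (permAt p σ x) * Y (permAt p σ x) (permAt p σ x) =
      cw u p q x * Y x x := by
    intro σ x
    rw [hYp.2, cw_congr u p q (permAt p σ x) x (fun j hj _ => permAt_other p σ x hj)]
  have hFq : ∀ (σ : Equiv.Perm (Fin 2)) x, cw u p q (permAt q σ x) * Y (permAt q σ x) (permAt q σ x) =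
      cw u p q x * Y x x := by
    intro σ x
    rw [hYq.2, cw_congr u p q (permAt q σ x) x (fun j _ hj => permAt_other q σ x hj)]
  have h3 := sum_place (N := 2) (by norm_num) q p hpq (fun x => cw u p q x * Y x x) hFq
  -- the two flips
  have hg : ∀ s : Fin m, ∃ g : Fin 2 → ℂ, (∀ x : Fin m → Fin 2, (if dirOf x s then u else u⁻¹) = g (x s)) ∧
      g 0 + g 1 = u + u⁻¹ := by
    intro s
    refine ⟨fun a => if ((a == 0) != ((s : ℕ) % 2 == 0)) then u else u⁻¹, fun x => rfl, ?_⟩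
    have h4 : (s : ℕ) % 2 = 0 ∨ (s : ℕ) % 2 = 1 := by omega
    rcases h4 with h4 | h4
    · rw [h4]
      simp [add_comm]
    · rw [h4]
      simp
  obtain ⟨gp, hgp, hgp'⟩ := hg p
  obtain ⟨gq, hgq, hgq'⟩ := hg q
  have h4 := sum_flip p (fun x => cw u p q x * Y x x) hFp gp
  have h5 := sum_flip q (fun x => cw u p q x * Y x x * gp (x p)) (by
    intro σ x
    beta_reduce
    rw [hFq, permAt_other q σ x hpq]) gq
  beta_reduce at h3 h4 h5
  have h6 : Matrix.trace (Matrix.diagonal (tw (m := m) u) * Y) =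
      ∑ x, cw u p q x * Y x x * gp (x p) * gq (x q) := by
    rw [h2]
    refine Finset.sum_congr rfl fun x _ => ?_
    rw [hgp, hgq]
    ring
  rw [h1, h6]
  rw [hgp'] at h4
  rw [hgq'] at h5
  push_cast at h3 ⊢
  have h7 : (∑ x, if x p = x q then cw u p q x * Y x x else 0) = (∑ x, cw u p q x * Y x x) / 2 := by
    rw [← h3]; ring
  have h8 : ∑ x, cw u p q x * Y x x * gp (x p) = (u + u⁻¹) * (∑ x, cw u p q x * Y x x) / 2 := by
    rw [← h4]; ring
  rw [h7, h5, h8]
  ring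

theorem trace_tw (u : ℂ) : Matrix.trace (Matrix.diagonal (tw (m := m) u)) = (u + u⁻¹) ^ m := by
  rw [Matrix.trace_diagonal]
  unfold tw
  have h1 : ∀ x : Fin m → Fin 2, (∏ j, if dirOf x j then u else u⁻¹) =
      ∏ j, (fun (j : Fin m) (a : Fin 2) => if ((a == 0) != ((j : ℕ) % 2 == 0)) then u else u⁻¹) j (x j) :=
    fun x => rfl
  rw [Finset.sum_congr rfl (fun x _ => h1 x)]
  rw [← Fintype.prod_sum (fun (j : Fin m) (a : Fin 2) => if ((a == 0) != ((j : ℕ) % 2 == 0)) then u else u⁻¹)]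
  have h2 : ∀ j : Fin m, ∑ a : Fin 2, (if ((a == 0) != ((j : ℕ) % 2 == 0)) then u else u⁻¹) = u + u⁻¹ := by
    intro j
    rw [Fin.sum_univ_two]
    have h4 : (j : ℕ) % 2 = 0 ∨ (j : ℕ) % 2 = 1 := by omega
    rcases h4 with h4 | h4
    · rw [h4]
      simp [add_comm]
    · rw [h4]
      simp
  rw [Finset.prod_congr rfl (fun j _ => h2 j), Finset.prod_const, Finset.card_univ, Fintype.card_fin]

/-- the data of a trace on the Temperley–Lieb algebra -/
structure TrData (m : ℕ) where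
  N : ℕ
  D : Matrix (Fin m → Fin N) (Fin m → Fin N) ℂ
  z : ℂ
  hN : N ≠ 0
  hz : z ≠ 0
  comm : ∀ i, i + 1 < m → D * KK m N i = KK m N i * D
  mark : ∀ r L, r + 1 < m → (∀ i ∈ L, i + 1 < r) →
    z ^ 2 * Matrix.trace (D * (WP (KK m N) L * KK m N r)) = N * Matrix.trace (D * WP (KK m N) L)
  tr : Matrix.trace D = z ^ m

/-- the usual trace -/
noncomputable def repN (m N : ℕ) (hN : N ≠ 0) : TrData m where
  N := N
  D := 1
  z := N
  hN := hN
  hz := Nat.cast_ne_zero.2 hN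
  comm := fun i _ => by rw [one_mul, mul_one]
  mark := fun r L hr hL => by
    rw [one_mul, one_mul, ← markov hN r L hr (fun i hi => by have := hL i hi; omega)]
    ring
  tr := by
    rw [Matrix.trace_one]
    simp

/-- the twisted trace -/
noncomputable def repU (m : ℕ) (u : ℂ) (hu : u ≠ 0) (hz : u + u⁻¹ ≠ 0) : TrData m where
  N := 2
  D := Matrix.diagonal (tw u)
  z := u + u⁻¹
  hN := by norm_num
  hz := hz
  comm := fun i hi => tw_comm hu i hi
  mark := fun r L hr hL => markov_tw hu r L hr hL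
  tr := trace_tw u

theorem trace_both (m : ℕ) (L : List ℕ) (hL : ∀ i ∈ L, i + 1 < m) :
    ∃ s c : ℕ, s ≤ m ∧ s % 2 = m % 2 ∧ L.length % 2 = c % 2 ∧
      ∀ j : TrData m, ∀ q, 1 ≤ q →
        Matrix.trace (j.D * (WP (KK m j.N) L) ^ q) = j.z ^ s * (j.N : ℂ) ^ (q * c) := by
  obtain ⟨s, c, h1, h2, h3, h4⟩ := annular' (K := ℂ) (ι := TrData m)
    (R := fun j => Matrix (Fin m → Fin j.N) (Fin m → Fin j.N) ℂ) (M := m)
    (d := fun j => (j.N : ℂ)) (e := fun j => KK m j.N) (fun j => isTL_KK m j.N)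
    (fun j => Nat.cast_ne_zero.2 j.hN) (fun j => j.z) (fun j => j.hz)
    (fun j => (Matrix.traceLinearMap _ ℂ ℂ).comp (LinearMap.mulLeft ℂ j.D))
    (fun j => Subalgebra.centralizer ℂ {j.D})
    (fun j i hi => by
      rw [Subalgebra.mem_centralizer_iff]
      intro g hg
      rw [Set.mem_singleton_iff] at hg
      rw [hg]
      exact j.comm i hi)
    (fun j x y _ hy => by
      rw [Subalgebra.mem_centralizer_iff] at hy
      have h := hy j.D rfl
      simp only [LinearMap.comp_apply, LinearMap.mulLeft_apply, Matrix.traceLinearMap_apply]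
      rw [← mul_assoc, ← mul_assoc, h, mul_assoc y, Matrix.trace_mul_comm y])
    (fun j r L hr hL => by
      simp only [LinearMap.comp_apply, LinearMap.mulLeft_apply, Matrix.traceLinearMap_apply]
      exact j.mark r L hr hL)
    (fun j => by
      simp only [LinearMap.comp_apply, LinearMap.mulLeft_apply, Matrix.traceLinearMap_apply]
      rw [mul_one]
      exact j.tr) m le_rfl L hL
  refine ⟨s, c, h1, h2, h3, fun j q hq => ?_⟩
  have := h4 j q hq
  rw [Nat.sub_self, zero_add] at this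
  exact this

end mat

end Pool.Agent.TH561.PK
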