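import Pool.Agent.H891R2.Jones.Final
import Pool.Agent.TH561.PK.Defs
import Pool.Agent.TH561.PK.Mat

/-!
# The partition function of a diagram in the annulus is a trace
-/

set_option autoImplicit false

namespace Pool.Agent.TH561.PK

open Pool.Agent.H891R2.Jones Finset

section general

variable {ι : Type*} [Fintype ι] [DecidableEq ι]

theorem prod_entry : ∀ (n : ℕ) (X : Fin (n+1) → Matrix ι ι ℂ) (x y : ι),
    (List.ofFn X).prod x y = ∑ f : Fin n → ι, ∏ t : Fin (n+1),
      X t ((Fin.cons x f : Fin (n+1) → ι) t) ((Fin.snoc f y : Fin (n+1) → ι) t)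
  | 0, X, x, y => by
    simp [Fin.snoc]
  | n+1, X, x, y => by
    rw [List.ofFn_succ, List.prod_cons, Matrix.mul_apply,
      ← (Fin.consEquiv (fun _ : Fin (n+1) => ι)).sum_comp, Fintype.sum_prod_type]
    refine Finset.sum_congr rfl fun z _ => ?_
    rw [prod_entry n (fun i => X i.succ) z y, Finset.mul_sum]
    refine Finset.sum_congr rfl fun f _ => ?_
    have h1 : (Fin.consEquiv (fun _ : Fin (n+1) => ι)) (z, f) = (Fin.cons z f : Fin (n+1) → ι) := rfl
    rw [h1, ← Fin.cons_snoc_eq_snoc_cons]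
    conv_rhs => rw [Fin.prod_univ_succ]
    congr 1

omit [Fintype ι] [DecidableEq ι] in
theorem cons_rotate (n : ℕ) (x : ι) (f : Fin n → ι) (t : Fin (n+1)) :
    (Fin.snoc f x : Fin (n+1) → ι) t = (Fin.cons x f : Fin (n+1) → ι) (finRotate (n+1) t) := by
  refine Fin.lastCases ?_ (fun i => ?_) t
  · rw [finRotate_last, Fin.snoc_last, Fin.cons_zero]
  · have : finRotate (n+1) i.castSucc = i.succ := finRotate_of_lt i.2
    rw [this, Fin.snoc_castSucc, Fin.cons_succ]

/-- the trace of a product, with a diagonal matrix in front -/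
theorem trace_prod (L : ℕ) (hL : 0 < L) (X : Fin L → Matrix ι ι ℂ) (g : ι → ℂ) :
    Matrix.trace (Matrix.diagonal g * (List.ofFn X).prod) =
      ∑ f : Fin L → ι, g (f ⟨0, hL⟩) * ∏ t, X t (f t) (f (finRotate L t)) := by
  obtain ⟨n, rfl⟩ : ∃ n, L = n + 1 := ⟨L - 1, by omega⟩
  unfold Matrix.trace
  rw [← (Fin.consEquiv (fun _ : Fin (n+1) => ι)).sum_comp, Fintype.sum_prod_type]
  refine Finset.sum_congr rfl fun x _ => ?_
  rw [Matrix.diag_apply, Matrix.diagonal_mul, prod_entry, Finset.mul_sum]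
  refine Finset.sum_congr rfl fun f _ => ?_
  have h1 : (Fin.consEquiv (fun _ : Fin (n+1) => ι)) (x, f) = (Fin.cons x f : Fin (n+1) → ι) := rfl
  rw [h1]
  congr 1
  refine Finset.prod_congr rfl fun t _ => ?_
  rw [cons_rotate]

end general

section words

variable {R : Type*} [Ring R] [Algebra ℂ R]

/-- the smoothings of a letter: weights and generators -/
def opts : Option Bool × ℕ → List (ℤ × List ℕ)
  | (some true, i) => [(1, []), (-1, [i])]
  | (some false, i) => [(-1, []), (1, [i])]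
  | (none, i) => [(0, [i])]

/-- the element of an algebra given by a letter -/
noncomputable def ME (A : ℂ) (e : ℕ → R) (x : Option Bool × ℕ) : R :=
  ((opts x).map (fun o => A ^ o.1 • WP e o.2)).sum

/-- the element of an algebra given by a word -/
noncomputable def MW (A : ℂ) (e : ℕ → R) (w : List (Option Bool × ℕ)) : R := (w.map (ME A e)).prod

end words

section diag

variable {M L N : ℕ}

/-- the letters of a word in elementary tangles -/
def toW (w : Fin L → Elem M) : List (Option Bool × ℕ) := List.ofFn (fun t => ((w t).1, ((w t).2 : ℕ)))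

theorem toW_mem (w : Fin L → Elem M) : ∀ x ∈ toW w, x.2 + 1 < M := by
  intro x hx
  unfold toW at hx
  rw [List.mem_ofFn] at hx
  obtain ⟨t, rfl⟩ := hx
  have := (w t).2.2
  simp only
  omega

theorem arcW_arrow (b : Bool) {P : Type} (p q : P) (col : P → Fin N) :
    arcW col (arrow b p q) = ind (col p = col q) := by
  unfold arcW arrow
  cases b
  · exact ind_congr eq_comm
  · rfl

theorem WW_nil {P : Type} (A : ℂ) (cr : List (Crossing P)) (col : P → Fin N) :
    WW A [] cr col = (cr.map (crossW A col)).prod := by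
  simp [WW]

theorem vert_prod (t t' : Fin L) (dir : Fin L × Fin M → Bool)
    (col : Fin L × Fin M → Fin N) (l : List (Fin M)) :
    ((l.map (fun j => arrow (dir (t, j)) (t, j) (t', j))).map (arcW col)).prod =
      ind (∀ j ∈ l, col (t, j) = col (t', j)) := by
  induction l with
  | nil => simp [ind]
  | cons a l ih =>
    rw [List.map_cons, List.map_cons, List.prod_cons, ih, arcW_arrow, ind_mul]
    exact ind_congr (by simp)

/-- the local weights of a level are the entries of a matrix -/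
theorem level_weight (A : ℂ) (x : Elem M) (t t' : Fin L) (dir : Fin L × Fin M → Bool)
    (col : Fin L × Fin M → Fin N) :
    WW A (levelArcs x t t' dir) (levelCrossings x t t' dir) col =
      ME A (KK M N) (x.1, (x.2 : ℕ)) (fun j => col (t, j)) (fun j => col (t', j)) := by
  obtain ⟨o, i⟩ := x
  have hi : (i : ℕ) + 1 < M := by have := i.2; omega
  have hlf : (Elem.lf (o, i) : Fin M) = ⟨i, Nat.lt_of_succ_lt hi⟩ := rfl
  have hrg : (Elem.rg (o, i) : Fin M) = ⟨i+1, hi⟩ := rfl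
  have hmem : (∀ j ∈ (List.finRange M).filter (fun j => j ≠ (Elem.lf (o, i) : Fin M) ∧ j ≠ Elem.rg (o, i)),
      col (t, j) = col (t', j)) ↔ ∀ j : Fin M, j ≠ ⟨i, Nat.lt_of_succ_lt hi⟩ → j ≠ ⟨i+1, hi⟩ →
      col (t, j) = col (t', j) := by
    rw [hlf, hrg]
    simp
  have h1 : ∀ x y : Fin M → Fin N, (1 : Matrix (Fin M → Fin N) (Fin M → Fin N) ℂ) x y = ind (x = y) := by
    intro x y
    rw [Matrix.one_apply]
    unfold ind
    split_ifs <;> rfl
  have h2 : ind ((fun j => col (t, j)) = (fun j => col (t', j))) =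
      ind (∀ j : Fin M, j ≠ ⟨i, Nat.lt_of_succ_lt hi⟩ → j ≠ ⟨i+1, hi⟩ → col (t, j) = col (t', j)) *
      ind (col (t, ⟨i, Nat.lt_of_succ_lt hi⟩) = col (t', ⟨i, Nat.lt_of_succ_lt hi⟩) ∧
        col (t, ⟨i+1, hi⟩) = col (t', ⟨i+1, hi⟩)) := by
    rw [ind_mul]
    apply ind_congr
    constructor
    · intro h
      exact ⟨fun j _ _ => congrFun h j, congrFun h _, congrFun h _⟩
    · rintro ⟨h3, h4, h5⟩
      funext j
      by_cases hj : j = ⟨i, Nat.lt_of_succ_lt hi⟩
      · rw [hj]; exact h4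
      · by_cases hj' : j = ⟨i+1, hi⟩
        · rw [hj']; exact h5
        · exact h3 j hj hj'
  have h3 : KK M N (i : ℕ) (fun j => col (t, j)) (fun j => col (t', j)) =
      ind (∀ j : Fin M, j ≠ ⟨i, Nat.lt_of_succ_lt hi⟩ → j ≠ ⟨i+1, hi⟩ → col (t, j) = col (t', j)) *
      ind (col (t, ⟨i, Nat.lt_of_succ_lt hi⟩) = col (t, ⟨i+1, hi⟩) ∧
        col (t', ⟨i, Nat.lt_of_succ_lt hi⟩) = col (t', ⟨i+1, hi⟩)) := by
    rw [KK_apply _ hi, ind_mul]
    apply ind_congr
    constructor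
    · rintro ⟨h3, h4, h5⟩; exact ⟨h5, h3, h4⟩
    · rintro ⟨h5, h3, h4⟩; exact ⟨h3, h4, h5⟩
  have hW : ∀ a b : List ((Fin L × Fin M) × (Fin L × Fin M)), ∀ c, WW A (a ++ b) c col =
      (a.map (arcW col)).prod * ((b.map (arcW col)).prod * (c.map (crossW A col)).prod) := by
    intro a b c
    unfold WW
    rw [List.map_append, List.prod_append, mul_assoc]
  unfold levelArcs levelCrossings
  rw [hW, vert_prod t t' dir col, ind_congr hmem]
  rcases o with _ | b
  · -- hook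
    simp only [List.map_cons, List.map_nil, List.prod_cons, List.prod_nil, mul_one, arcW_arrow, ME,
      opts, List.sum_cons, List.sum_nil, add_zero, zpow_zero, one_smul, WP_cons, WP_nil]
    rw [h3, ind_mul]
    rfl
  · cases b
    · simp only [List.map_cons, List.map_nil, List.prod_cons, List.prod_nil, mul_one, one_mul, ME,
        opts, List.sum_cons, List.sum_nil, add_zero, WP_cons, WP_nil, Matrix.add_apply,
        Matrix.smul_apply, smul_eq_mul, zpow_neg, zpow_one, crossW]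
      rw [h3, h1, h2, hlf, hrg]
      have e1 : ind (col (t, ⟨(i : ℕ), Nat.lt_of_succ_lt hi⟩) = col (t, ⟨(i : ℕ)+1, hi⟩) ∧
          col (t', ⟨(i : ℕ)+1, hi⟩) = col (t', ⟨(i : ℕ), Nat.lt_of_succ_lt hi⟩)) =
          ind (col (t, ⟨(i : ℕ), Nat.lt_of_succ_lt hi⟩) = col (t, ⟨(i : ℕ)+1, hi⟩) ∧
        col (t', ⟨(i : ℕ), Nat.lt_of_succ_lt hi⟩) = col (t', ⟨(i : ℕ)+1, hi⟩)) :=
        ind_congr (and_congr_right (fun _ => eq_comm))
      have e2 : ind (col (t, ⟨(i : ℕ)+1, hi⟩) = col (t', ⟨(i : ℕ)+1, hi⟩) ∧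
          col (t', ⟨(i : ℕ), Nat.lt_of_succ_lt hi⟩) = col (t, ⟨(i : ℕ), Nat.lt_of_succ_lt hi⟩)) =
          ind (col (t, ⟨(i : ℕ), Nat.lt_of_succ_lt hi⟩) = col (t', ⟨(i : ℕ), Nat.lt_of_succ_lt hi⟩) ∧
        col (t, ⟨(i : ℕ)+1, hi⟩) = col (t', ⟨(i : ℕ)+1, hi⟩)) :=
        ind_congr ⟨fun h => ⟨h.2.symm, h.1⟩, fun h => ⟨h.2, h.1.symm⟩⟩
      rw [e1, e2]
      ring
    · simp only [List.map_cons, List.map_nil, List.prod_cons, List.prod_nil, mul_one, one_mul, ME,
        opts, List.sum_cons, List.sum_nil, add_zero, WP_cons, WP_nil, Matrix.add_apply,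
        Matrix.smul_apply, smul_eq_mul, zpow_neg, zpow_one, crossW]
      rw [h3, h1, h2, hlf, hrg]
      have e1 : ind (col (t, ⟨(i : ℕ)+1, hi⟩) = col (t', ⟨(i : ℕ)+1, hi⟩) ∧
          col (t', ⟨(i : ℕ), Nat.lt_of_succ_lt hi⟩) = col (t, ⟨(i : ℕ), Nat.lt_of_succ_lt hi⟩)) =
          ind (col (t, ⟨(i : ℕ), Nat.lt_of_succ_lt hi⟩) = col (t', ⟨(i : ℕ), Nat.lt_of_succ_lt hi⟩) ∧
        col (t, ⟨(i : ℕ)+1, hi⟩) = col (t', ⟨(i : ℕ)+1, hi⟩)) :=
        ind_congr ⟨fun h => ⟨h.2.symm, h.1⟩, fun h => ⟨h.2, h.1.symm⟩⟩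
      have e2 : ind (col (t', ⟨(i : ℕ)+1, hi⟩) = col (t', ⟨(i : ℕ), Nat.lt_of_succ_lt hi⟩) ∧
          col (t, ⟨(i : ℕ), Nat.lt_of_succ_lt hi⟩) = col (t, ⟨(i : ℕ)+1, hi⟩)) =
          ind (col (t, ⟨(i : ℕ), Nat.lt_of_succ_lt hi⟩) = col (t, ⟨(i : ℕ)+1, hi⟩) ∧
        col (t', ⟨(i : ℕ), Nat.lt_of_succ_lt hi⟩) = col (t', ⟨(i : ℕ)+1, hi⟩)) :=
        ind_congr ⟨fun h => ⟨h.2, h.1.symm⟩, fun h => ⟨h.2.symm, h.1⟩⟩
      rw [e1, e2]
      ring

theorem WW_flat {P : Type} (A : ℂ) {α : Type*} (l : List α) (a : α → List (P × P))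
    (c : α → List (Crossing P)) (col : P → Fin N) :
    WW A (l.flatMap a) (l.flatMap c) col = (l.map (fun t => WW A (a t) (c t) col)).prod := by
  induction l with
  | nil => simp [WW]
  | cons x l ih =>
    rw [List.map_cons, List.prod_cons, ← ih, List.flatMap_cons, List.flatMap_cons]
    unfold WW
    rw [List.map_append, List.map_append, List.prod_append, List.prod_append]
    ring

/-- the bracket of a closed diagram in the annulus is a trace -/
theorem annular_bracket (hL : 0 < L) (w : Fin L → Elem M) (dir : Fin L × Fin M → Bool) (hM : 0 < M)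
    (hN : 3 ≤ N) :
    (N : ℂ) * ev N hN (annular w dir).bracket = Matrix.trace (MW (Ar N) (KK M N) (toW w)) := by
  have : Nonempty (Fin L × Fin M) := ⟨(⟨0, hL⟩, ⟨0, hM⟩)⟩
  rw [ev_bracket N hN]
  have h1 : ∀ col : Fin L × Fin M → Fin N, WW (Ar N) (annular w dir).arcs (annular w dir).crossings col =
      ∏ t, ME (Ar N) (KK M N) ((w t).1, ((w t).2 : ℕ)) (fun j => col (t, j))
        (fun j => col (finRotate L t, j)) := by
    intro col
    unfold annular
    rw [WW_flat, ← Fin.prod_univ_def]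
    refine Finset.prod_congr rfl fun t _ => ?_
    rw [level_weight]
  rw [Finset.sum_congr rfl (fun col _ => h1 col)]
  rw [← (Equiv.curry (Fin L) (Fin M) (Fin N)).symm.sum_comp]
  have h2 := trace_prod L hL (fun t => ME (Ar N) (KK M N) ((w t).1, ((w t).2 : ℕ))) (fun _ => 1)
  have h3 : Matrix.diagonal (fun _ : Fin M → Fin N => (1 : ℂ)) = 1 := Matrix.diagonal_one
  rw [h3, one_mul] at h2
  have h4 : (List.ofFn (fun t => ME (Ar N) (KK M N) ((w t).1, ((w t).2 : ℕ)))).prod =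
      MW (Ar N) (KK M N) (toW w) := by
    unfold MW toW
    rw [List.map_ofFn]
    rfl
  rw [← h4, h2]
  refine Finset.sum_congr rfl fun f _ => ?_
  rw [one_mul]
  rfl

end diag

end Pool.Agent.TH561.PK
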