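import Pool.Agent.TH561.PB.Main
import Pool.Agent.TH561.PK.Trace

/-!
# States of words with crossings and hooks; the bracket modulo a prime
-/

set_option autoImplicit false

namespace Pool.Agent.TH561.PK

open Pool.Agent.H891R2.Jones Finset LaurentPolynomial

section terms

/-- the states of a word: weights and words of the generators `e i` -/
def trm : List (Option Bool × ℕ) → List (ℤ × List ℕ)
  | [] => [(0, [])]
  | x :: w => (opts x).flatMap (fun o => (trm w).map (fun t => (o.1 + t.1, o.2 ++ t.2)))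

theorem opts_mem {m : ℕ} (x : Option Bool × ℕ) (hx : x.2 + 1 < m) :
    ∀ o ∈ opts x, ∀ i ∈ o.2, i + 1 < m := by
  obtain ⟨a, i⟩ := x
  intro o ho k hk
  rcases a with _ | b
  · simp only [opts, List.mem_singleton] at ho
    subst ho
    rw [List.mem_singleton] at hk
    subst hk
    exact hx
  · cases b
    all_goals
      simp only [opts, List.mem_cons, List.not_mem_nil, or_false] at ho
      rcases ho with rfl | rfl
      · exact absurd hk (by simp)
      · rw [List.mem_singleton] at hk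
        subst hk
        exact hx

theorem trm_mem {m : ℕ} (w : List (Option Bool × ℕ)) (hw : ∀ x ∈ w, x.2 + 1 < m) :
    ∀ t ∈ trm w, ∀ i ∈ t.2, i + 1 < m := by
  induction w with
  | nil => intro t ht; simp [trm] at ht; subst ht; simp
  | cons x w ih =>
    intro t ht i hi
    rw [trm, List.mem_flatMap] at ht
    obtain ⟨o, ho, ht⟩ := ht
    rw [List.mem_map] at ht
    obtain ⟨u, hu, rfl⟩ := ht
    rcases List.mem_append.1 hi with hi | hi
    · exact opts_mem x (hw x List.mem_cons_self) o ho i hi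
    · exact ih (fun y hy => hw y (List.mem_cons_of_mem _ hy)) u hu i hi

/-- the class modulo four of a letter -/
def cls (x : Option Bool × ℕ) : ℤ :=
  match x.1 with
  | some true => 1
  | some false => -1
  | none => 2

/-- the class modulo four of a word -/
def clw (w : List (Option Bool × ℕ)) : ℤ := (w.map cls).sum

theorem opts_mod (x : Option Bool × ℕ) :
    ∀ o ∈ opts x, ∃ k : ℤ, o.1 + 2 * (o.2.length : ℤ) = cls x + 4 * k := by
  obtain ⟨a, i⟩ := x
  intro o ho
  rcases a with _ | b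
  · simp only [opts, List.mem_singleton] at ho
    subst ho
    exact ⟨0, by simp [cls]⟩
  · cases b
    · simp only [opts, List.mem_cons, List.not_mem_nil, or_false] at ho
      rcases ho with rfl | rfl
      · exact ⟨0, by simp [cls]⟩
      · exact ⟨1, by simp [cls]⟩
    · simp only [opts, List.mem_cons, List.not_mem_nil, or_false] at ho
      rcases ho with rfl | rfl
      · exact ⟨0, by simp [cls]⟩
      · exact ⟨0, by simp [cls]⟩

theorem trm_mod (w : List (Option Bool × ℕ)) :
    ∀ t ∈ trm w, ∃ k : ℤ, t.1 + 2 * (t.2.length : ℤ) = clw w + 4 * k := by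
  induction w with
  | nil => intro t ht; simp [trm] at ht; subst ht; exact ⟨0, by simp [clw]⟩
  | cons x w ih =>
    intro t ht
    rw [trm, List.mem_flatMap] at ht
    obtain ⟨o, ho, ht⟩ := ht
    rw [List.mem_map] at ht
    obtain ⟨u, hu, rfl⟩ := ht
    obtain ⟨k1, h1⟩ := opts_mod x o ho
    obtain ⟨k2, h2⟩ := ih u hu
    refine ⟨k1 + k2, ?_⟩
    have h3 : clw (x :: w) = cls x + clw w := by simp [clw]
    rw [h3]
    simp only [List.length_append]
    push_cast
    linarith

variable {R : Type*} [Ring R] [Algebra ℂ R]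

theorem MW_cons (A : ℂ) (e : ℕ → R) (x : Option Bool × ℕ) (w : List (Option Bool × ℕ)) :
    MW A e (x :: w) = ME A e x * MW A e w := by simp [MW]

theorem MW_trm {A : ℂ} (hA : A ≠ 0) (e : ℕ → R) (w : List (Option Bool × ℕ)) :
    MW A e w = ((trm w).map (fun t => A ^ t.1 • WP e t.2)).sum := by
  induction w with
  | nil => simp [MW, trm]
  | cons x w ih =>
    rw [MW_cons, ih, trm]
    generalize trm w = l
    unfold ME
    generalize opts x = k
    induction k with
    | nil => simp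
    | cons o k ihk =>
      rw [List.map_cons, List.sum_cons, add_mul, ihk, List.flatMap_cons, List.map_append,
        List.sum_append]
      congr 1
      rw [List.map_map, ← List.sum_map_mul_left]
      congr 1
      apply List.map_congr_left
      intro t _
      simp only [Function.comp_apply]
      rw [smul_mul_smul_comm, zpow_add₀ hA, WP_append]

/-- the states as a type -/
abbrev Sm (w : List (Option Bool × ℕ)) : Type := Fin (trm w).length

/-- weight of a state -/
def wgt {w : List (Option Bool × ℕ)} (i : Sm w) : ℤ := ((trm w)[i]).1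

/-- the word of the generators of a state -/
def gen {w : List (Option Bool × ℕ)} (i : Sm w) : List ℕ := ((trm w)[i]).2

theorem MW_sum {A : ℂ} (hA : A ≠ 0) (e : ℕ → R) (w : List (Option Bool × ℕ)) :
    MW A e w = ∑ i : Sm w, A ^ wgt i • WP e (gen i) := by
  rw [MW_trm hA, ← Fin.sum_univ_fun_getElem (trm w) (fun t : ℤ × List ℕ => A ^ t.1 • WP e t.2)]
  rfl

/-- the word of a sequence of states -/
def sqw {w : List (Option Bool × ℕ)} {q : ℕ} (f : Fin q → Sm w) : List ℕ :=
  (List.ofFn (fun j => gen (f j))).flatten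

theorem MW_pow {A : ℂ} (hA : A ≠ 0) (e : ℕ → R) (w : List (Option Bool × ℕ)) (q : ℕ) :
    (MW A e w) ^ q = ∑ f : Fin q → Sm w, A ^ (∑ j, wgt (f j)) • WP e (sqw f) := by
  rw [MW_sum hA, sum_pow_ofFn]
  refine Finset.sum_congr rfl fun f _ => ?_
  rw [prod_smul_ofFn, zpow_sum _ hA]
  congr 1
  unfold sqw
  rw [WP_flatten, List.map_ofFn]
  rfl

variable {m N : ℕ}

theorem sqw_mem {w : List (Option Bool × ℕ)} (hw : ∀ x ∈ w, x.2 + 1 < m) {q : ℕ} (f : Fin q → Sm w) :
    ∀ i ∈ sqw f, i + 1 < m := by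
  intro i hi
  unfold sqw at hi
  rw [List.mem_flatten] at hi
  obtain ⟨l, hl, hi⟩ := hi
  rw [List.mem_ofFn] at hl
  obtain ⟨j, rfl⟩ := hl
  exact trm_mem w hw _ (List.getElem_mem _) i hi

theorem gen_mem {w : List (Option Bool × ℕ)} (hw : ∀ x ∈ w, x.2 + 1 < m) (i : Sm w) :
    ∀ k ∈ gen i, k + 1 < m := trm_mem w hw _ (List.getElem_mem _)

open Classical in
/-- the number of essential curves of the closure of a word -/
noncomputable def esn (m : ℕ) (L : List ℕ) : ℕ :=
  if h : ∀ i ∈ L, i + 1 < m then (trace_both m L h).choose else 0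

open Classical in
/-- the number of inessential curves of the closure of a word -/
noncomputable def inn (m : ℕ) (L : List ℕ) : ℕ :=
  if h : ∀ i ∈ L, i + 1 < m then (trace_both m L h).choose_spec.choose else 0

theorem esn_inn (L : List ℕ) (h : ∀ i ∈ L, i + 1 < m) :
    esn m L ≤ m ∧ esn m L % 2 = m % 2 ∧ L.length % 2 = inn m L % 2 ∧
      ∀ j : TrData m, ∀ q, 1 ≤ q →
        Matrix.trace (j.D * (WP (KK m j.N) L) ^ q) = j.z ^ (esn m L) * (j.N : ℂ) ^ (q * inn m L) := by
  unfold esn inn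
  rw [dif_pos h, dif_pos h]
  exact (trace_both m L h).choose_spec.choose_spec

theorem trace_N (L : List ℕ) (h : ∀ i ∈ L, i + 1 < m) {N : ℕ} (hN : N ≠ 0) {q : ℕ} (hq : 1 ≤ q) :
    Matrix.trace ((WP (KK m N) L) ^ q) = (N : ℂ) ^ (esn m L + q * inn m L) := by
  have h1 := (esn_inn L h).2.2.2 (repN m N hN) q hq
  have h2 : Matrix.trace ((1 : Matrix (Fin m → Fin N) (Fin m → Fin N) ℂ) * (WP (KK m N) L) ^ q) =
      (N : ℂ) ^ (esn m L) * (N : ℂ) ^ (q * inn m L) := h1
  rw [one_mul, ← pow_add] at h2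
  exact h2

theorem trace_U (L : List ℕ) (h : ∀ i ∈ L, i + 1 < m) {u : ℂ} (hu : u ≠ 0) (hz : u + u⁻¹ ≠ 0) :
    Matrix.trace (Matrix.diagonal (tw u) * WP (KK m 2) L) =
      (u + u⁻¹) ^ (esn m L) * 2 ^ (inn m L) := by
  have h1 := (esn_inn L h).2.2.2 (repU m u hu hz) 1 le_rfl
  have h2 : Matrix.trace (Matrix.diagonal (tw u) * (WP (KK m 2) L) ^ 1) =
      (u + u⁻¹) ^ (esn m L) * ((2 : ℕ) : ℂ) ^ (1 * inn m L) := h1
  rw [pow_one, one_mul] at h2
  exact_mod_cast h2

/-- the number of closed curves -/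
noncomputable def nlp (m : ℕ) (L : List ℕ) : ℕ := esn m L + inn m L

theorem trace_nlp (L : List ℕ) (h : ∀ i ∈ L, i + 1 < m) {N : ℕ} (hN : N ≠ 0) :
    Matrix.trace (WP (KK m N) L) = (N : ℂ) ^ nlp m L := by
  have := trace_N L h hN le_rfl
  rw [pow_one, one_mul] at this
  exact this

theorem nlp_eq {L L' : List ℕ} (h : ∀ i ∈ L, i + 1 < m) (h' : ∀ i ∈ L', i + 1 < m)
    (ht : Matrix.trace (WP (KK m 2) L) = Matrix.trace (WP (KK m 2) L')) : nlp m L = nlp m L' := by
  rw [trace_nlp L h (by norm_num), trace_nlp L' h' (by norm_num)] at ht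
  have h2 : (2 : ℕ) ^ nlp m L = 2 ^ nlp m L' := by exact_mod_cast ht
  exact Nat.pow_right_injective le_rfl h2

theorem MW_replicate (A : ℂ) (e : ℕ → R) (B : List (Option Bool × ℕ)) (q : ℕ) :
    MW A e (List.replicate q B).flatten = (MW A e B) ^ q := by
  induction q with
  | zero => simp [MW]
  | succ q ih =>
    rw [List.replicate_succ, List.flatten_cons, pow_succ', ← ih]
    simp [MW]

/-- the bracket of the closure of a word which is a `q`-th power -/
theorem bracket_sum {L : ℕ} (hL : 0 < L) (hm : 0 < m) (w : Fin L → Elem m)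
    (dir : Fin L × Fin m → Bool) (B : List (Option Bool × ℕ)) (hB : ∀ x ∈ B, x.2 + 1 < m) (q : ℕ)
    (hWB : toW w = (List.replicate q B).flatten) :
    dl * (annular w dir).bracket = ∑ f : Fin q → Sm B, T (∑ j, wgt (f j)) * dl ^ nlp m (sqw f) := by
  rw [← sub_eq_zero]
  by_contra hne
  obtain ⟨N, hN, hev⟩ := Pool.Agent.W639.RB.exists_ev_ne _ hne
  apply hev
  have hpow : MW (Ar N) (KK m N) (toW w) = (MW (Ar N) (KK m N) B) ^ q := by
    rw [hWB, MW_replicate]
  rw [map_sub, sub_eq_zero, map_mul, ev_dl, annular_bracket hL w dir hm hN, hpow,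
    MW_pow (Ar_ne N hN), Matrix.trace_sum, map_sum]
  refine Finset.sum_congr rfl fun f _ => ?_
  rw [Matrix.trace_smul, trace_nlp _ (sqw_mem hB f) (by omega), map_mul, map_pow, ev_dl, ev_T,
    smul_eq_mul]

theorem WP_sqw {B : List (Option Bool × ℕ)} {q N : ℕ} (f : Fin q → Sm B) :
    WP (KK m N) (sqw f) = (List.ofFn (fun j => WP (KK m N) (gen (f j)))).prod := by
  unfold sqw
  rw [WP_flatten, List.map_ofFn]
  rfl

theorem nlp_rot {B : List (Option Bool × ℕ)} (hB : ∀ x ∈ B, x.2 + 1 < m) {q : ℕ} (f : Fin q → Sm B) :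
    nlp m (sqw (f ∘ finRotate q)) = nlp m (sqw f) := by
  apply nlp_eq (sqw_mem hB _) (sqw_mem hB _)
  rw [WP_sqw, WP_sqw]
  exact trace_rot q (fun j => WP (KK m 2) (gen (f j)))

theorem nlp_const {B : List (Option Bool × ℕ)} (hB : ∀ x ∈ B, x.2 + 1 < m) {q : ℕ} (hq : 1 ≤ q)
    (i : Sm B) : nlp m (sqw (fun _ : Fin q => i)) = esn m (gen i) + q * inn m (gen i) := by
  have h1 := trace_nlp (N := 2) (sqw (fun _ : Fin q => i)) (sqw_mem hB _) (by norm_num)
  rw [WP_sqw, List.ofFn_const, List.prod_replicate,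
    trace_N (gen i) (gen_mem hB i) (by norm_num) hq] at h1
  have h2 : (2 : ℕ) ^ (esn m (gen i) + q * inn m (gen i)) = 2 ^ nlp m (sqw (fun _ : Fin q => i)) := by
    exact_mod_cast h1
  exact (Nat.pow_right_injective le_rfl h2).symm

/-- the bracket modulo `p` of a diagram with a symmetry of order `p ^ k` -/
theorem bracket_modp {L : ℕ} (hL : 0 < L) (hm : 0 < m) (w : Fin L → Elem m)
    (dir : Fin L × Fin m → Bool) (p : ℕ) [Fact p.Prime] (k : ℕ) (B : List (Option Bool × ℕ))
    (hB : ∀ x ∈ B, x.2 + 1 < m) (hWB : toW w = (List.replicate (p ^ k) B).flatten) :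
    red p (dl * (annular w dir).bracket) =
      ∑ i : Sm B, (T (wgt i) * dF (ZMod p) ^ inn m (gen i)) ^ (p ^ k) * dF (ZMod p) ^ esn m (gen i) := by
  have hq : 1 ≤ p ^ k := Nat.one_le_iff_ne_zero.2 (pow_ne_zero k (Fact.out : p.Prime).ne_zero)
  rw [bracket_sum hL hm w dir B hB (p ^ k) hWB, map_sum]
  have h1 : ∀ f : Fin (p ^ k) → Sm B, red p (T (∑ j, wgt (f j)) * dl ^ nlp m (sqw f)) =
      T (∑ j, wgt (f j)) * dF (ZMod p) ^ nlp m (sqw f) := by
    intro f
    rw [map_mul, map_pow, red_T, red_dl]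
  rw [Finset.sum_congr rfl (fun f _ => h1 f)]
  rw [sum_seq p k (fun f : Fin (p ^ k) → Sm B =>
    (T (∑ j, wgt (f j)) * dF (ZMod p) ^ nlp m (sqw f) : (ZMod p)[T;T⁻¹])) (by
      intro f
      rw [nlp_rot hB f]
      congr 2
      exact Equiv.sum_comp (finRotate (p ^ k)) (fun j => wgt (f j)))]
  refine Finset.sum_congr rfl fun i _ => ?_
  rw [nlp_const hB hq i, mul_pow, T_pow, ← pow_mul, Finset.sum_const, Finset.card_univ,
    Fintype.card_fin, pow_add, nsmul_eq_mul, mul_comm (p ^ k) (inn m (gen i))]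
  push_cast
  ring

/-- the class of the exponents -/
theorem wgt_mod {B : List (Option Bool × ℕ)} (hB : ∀ x ∈ B, x.2 + 1 < m) (i : Sm B) :
    ∃ k : ℤ, wgt i - 2 * (inn m (gen i) : ℤ) = clw B + 4 * k := by
  obtain ⟨k, hk⟩ := trm_mod B _ (List.getElem_mem i.2)
  have h2 : wgt i + 2 * ((gen i).length : ℤ) = clw B + 4 * k := hk
  obtain ⟨_, _, h3, _⟩ := esn_inn (gen i) (gen_mem hB i)
  have h4 : ∃ c : ℤ, ((gen i).length : ℤ) + inn m (gen i) = 2 * c :=
    ⟨(((gen i).length : ℤ) + inn m (gen i)) / 2, by omega⟩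
  obtain ⟨c, hc⟩ := h4
  exact ⟨k - c, by linarith⟩

end terms

end Pool.Agent.TH561.PK
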